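import Pool.Agent.H74.Rho.B
import Pool.Agent.H51.Rho.M

/-!
# Dense admissible sets, uniform version: mass of the `w`-smooth numbers
-/

set_option autoImplicit false

open Finset Real
open Pool.Agent.H85.Rho hiding PP MM TT

namespace RhoU

theorem two_div_log_two : 2 / Real.log 2 ≤ 3 := by
  have h1 : 0 < Real.log 2 := Real.log_pos (by norm_num)
  rw [div_le_iff₀ h1]
  have := Real.log_two_gt_d9
  linarith

theorem Sm_card_u (w M : ℕ) (hM : 2 ≤ M) : ((Sm w M).card : ℝ) ≤ 3 ^ w * (Real.log M) ^ w := by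
  have hl2 : 0 < Real.log 2 := Real.log_pos (by norm_num)
  have hlM : 0 ≤ Real.log M := Real.log_natCast_nonneg M
  have h1 : ((Sm w M).card : ℝ) ≤ ((Nat.log 2 M : ℝ) + 1) ^ w := by
    exact_mod_cast Sm_card_nat w M
  refine h1.trans ?_
  rw [← mul_pow]
  refine pow_le_pow_left₀ (by positivity) ?_ w
  have hM' : (2:ℝ) ≤ M := by exact_mod_cast hM
  have h2 : (Nat.log 2 M : ℝ) * Real.log 2 ≤ Real.log M := by
    rw [← Real.log_pow]
    apply Real.log_le_log (by positivity)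
    exact_mod_cast Nat.pow_log_le_self 2 (by omega : M ≠ 0)
  have h3 : Real.log 2 ≤ Real.log M := Real.log_le_log (by norm_num) hM'
  have h4 : ((Nat.log 2 M : ℝ) + 1) * Real.log 2 ≤ 2 * Real.log M := by linarith
  calc ((Nat.log 2 M : ℝ) + 1) ≤ 2 / Real.log 2 * Real.log M := by
        rw [div_mul_eq_mul_div, le_div_iff₀ hl2]
        exact h4
    _ ≤ 3 * Real.log M := mul_le_mul_of_nonneg_right two_div_log_two hlM

theorem pow_bd (w j : ℕ) : ((j : ℝ) + 2) ^ w / 2 ^ j ≤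
    2 * (w.factorial * 3 ^ w) * (1 / Real.sqrt 2) ^ j := by
  have hl2 : 0 < Real.log 2 := Real.log_pos (by norm_num)
  have hs2 : 0 < Real.sqrt 2 := Real.sqrt_pos.mpr (by norm_num)
  set x : ℝ := (j : ℝ) + 2 with hx
  have hx0 : 0 < x := by positivity
  have h1 := Real.pow_div_factorial_le_exp (x * (Real.log 2 / 2)) (by positivity) w
  have h2 : Real.exp (x * (Real.log 2 / 2)) = (Real.sqrt 2) ^ (j + 2) := by
    have h3 : Real.sqrt 2 = Real.exp (Real.log 2 / 2) := by
      rw [Real.exp_half, Real.exp_log (by norm_num)]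
    rw [h3, ← Real.exp_nat_mul]
    congr 1
    push_cast
    rw [hx]
  rw [h2, div_le_iff₀ (by positivity)] at h1
  have h4 : x ^ w ≤ w.factorial * 3 ^ w * (Real.sqrt 2) ^ (j + 2) := by
    have e1 : x ^ w = (x * (Real.log 2 / 2)) ^ w * (2 / Real.log 2) ^ w := by
      rw [← mul_pow]
      congr 1
      field_simp
    rw [e1]
    calc (x * (Real.log 2 / 2)) ^ w * (2 / Real.log 2) ^ w
        ≤ ((Real.sqrt 2) ^ (j + 2) * w.factorial) * 3 ^ w := by
          apply mul_le_mul h1 (pow_le_pow_left₀ (by positivity) two_div_log_two w)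
            (by positivity) (by positivity)
      _ = _ := by ring
  have hsq : Real.sqrt 2 ^ 2 = 2 := Real.sq_sqrt (by norm_num)
  rw [div_le_iff₀ (by positivity)]
  refine h4.trans (le_of_eq ?_)
  have h5 : (2 : ℝ) ^ j = (Real.sqrt 2) ^ j * (Real.sqrt 2) ^ j := by
    rw [← mul_pow, ← sq, hsq]
  rw [h5, pow_add, hsq, div_pow, one_pow]
  field_simp

theorem sum_bd (w J : ℕ) : ∑ j ∈ range J, ((j : ℝ) + 2) ^ w / 2 ^ j ≤
    7 * (w.factorial * 3 ^ w) := by
  have hs2 : 0 < Real.sqrt 2 := Real.sqrt_pos.mpr (by norm_num)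
  have hs : (1.41 : ℝ) ≤ Real.sqrt 2 := by
    apply Real.le_sqrt_of_sq_le
    norm_num
  have hr : 1 / Real.sqrt 2 ≤ 0.71 := by
    rw [div_le_iff₀ hs2]
    nlinarith
  have hr0 : 0 ≤ 1 / Real.sqrt 2 := by positivity
  have hr1 : 1 / Real.sqrt 2 < 1 := by linarith
  have h1 : ∑ j ∈ range J, (1 / Real.sqrt 2) ^ j ≤ 3.5 := by
    have h2 : ∑ j ∈ range J, (1 / Real.sqrt 2) ^ j ≤ (1 - 1 / Real.sqrt 2)⁻¹ := by
      rw [← tsum_geometric_of_lt_one hr0 hr1]
      exact (summable_geometric_of_lt_one hr0 hr1).sum_le_tsum _ (fun j _ => pow_nonneg hr0 j)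
    refine h2.trans ?_
    rw [inv_le_comm₀ (by linarith) (by norm_num)]
    norm_num
    norm_num at hr
    linarith
  calc ∑ j ∈ range J, ((j : ℝ) + 2) ^ w / 2 ^ j ≤
        ∑ j ∈ range J, 2 * (w.factorial * 3 ^ w) * (1 / Real.sqrt 2) ^ j :=
        sum_le_sum fun j _ => pow_bd w j
    _ = 2 * (w.factorial * 3 ^ w) * ∑ j ∈ range J, (1 / Real.sqrt 2) ^ j := by rw [mul_sum]
    _ ≤ 2 * (w.factorial * 3 ^ w) * 3.5 := mul_le_mul_of_nonneg_left h1 (by positivity)
    _ = _ := by ring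

/-- explicit tail constant -/
noncomputable def tc (w : ℕ) : ℝ := 7 * (9 * w) ^ w

theorem tail_u (w M : ℕ) (hM : 2 ≤ M) (J : ℕ) :
    ∑ m ∈ (Sm w (M * 2 ^ J)).filter (fun m => M < m), (1:ℝ) / m ≤ tc w * (Real.log M) ^ w / M := by
  have hC : ∀ M : ℕ, 2 ≤ M → ((Sm w M).card : ℝ) ≤ 3 ^ w * (Real.log M) ^ w := fun M hM =>
    Sm_card_u w M hM
  have hlM : 0 ≤ Real.log M := Real.log_natCast_nonneg M
  have hM0 : (0 : ℝ) < M := by
    have : 0 < M := by omega
    exact_mod_cast this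
  have key : ∀ J : ℕ, ∑ m ∈ (Sm w (M * 2 ^ J)).filter (fun m => M < m), (1:ℝ) / m ≤
      ∑ j ∈ range J, 3 ^ w * (Real.log M) ^ w / M * (((j:ℝ) + 2) ^ w / 2 ^ j) := by
    intro J
    induction J with
    | zero =>
      rw [range_zero, sum_empty, pow_zero, mul_one]
      have : (Sm w M).filter (fun m => M < m) = ∅ := by
        rw [filter_eq_empty_iff]
        intro m hm
        have := (mem_Sm.mp hm).1.2
        omega
      rw [this, sum_empty]
    | succ J ih =>
      rw [sum_range_succ]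
      have hsub : (Sm w (M * 2 ^ (J + 1))).filter (fun m => M < m) ⊆
          (Sm w (M * 2 ^ J)).filter (fun m => M < m) ∪
          (Sm w (M * 2 ^ (J + 1))).filter (fun m => M * 2 ^ J < m) := by
        intro m hm
        rw [mem_filter, mem_Sm] at hm
        rw [mem_union, mem_filter, mem_filter, mem_Sm, mem_Sm]
        by_cases h : m ≤ M * 2 ^ J
        · exact Or.inl ⟨⟨⟨hm.1.1.1, h⟩, hm.1.2⟩, hm.2⟩
        · exact Or.inr ⟨hm.1, by omega⟩
      calc _ ≤ ∑ m ∈ (Sm w (M * 2 ^ J)).filter (fun m => M < m) ∪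
          (Sm w (M * 2 ^ (J + 1))).filter (fun m => M * 2 ^ J < m), (1:ℝ) / m :=
            sum_le_sum_of_subset_of_nonneg hsub (fun _ _ _ => by positivity)
        _ ≤ ∑ m ∈ (Sm w (M * 2 ^ J)).filter (fun m => M < m), (1:ℝ) / m +
          ∑ m ∈ (Sm w (M * 2 ^ (J + 1))).filter (fun m => M * 2 ^ J < m), (1:ℝ) / m := by
            rw [← sum_union_inter]
            have : 0 ≤ ∑ m ∈ (Sm w (M * 2 ^ J)).filter (fun m => M < m) ∩
              (Sm w (M * 2 ^ (J + 1))).filter (fun m => M * 2 ^ J < m), (1:ℝ) / m :=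
              sum_nonneg (fun _ _ => by positivity)
            linarith
        _ ≤ _ := add_le_add ih (tail_block w (3 ^ w) hC M hM J)
  refine (key J).trans ?_
  rw [← mul_sum]
  have hfac : (w.factorial : ℝ) ≤ (w : ℝ) ^ w := by exact_mod_cast Nat.factorial_le_pow w
  calc 3 ^ w * (Real.log M) ^ w / M * ∑ j ∈ range J, ((j:ℝ) + 2) ^ w / 2 ^ j
      ≤ 3 ^ w * (Real.log M) ^ w / M * (7 * (w.factorial * 3 ^ w)) :=
        mul_le_mul_of_nonneg_left (sum_bd w J) (by positivity)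
    _ ≤ 3 ^ w * (Real.log M) ^ w / M * (7 * ((w : ℝ) ^ w * 3 ^ w)) := by gcongr
    _ = tc w * (Real.log M) ^ w / M := by
        unfold tc
        rw [mul_pow, show (9 : ℝ) = 3 * 3 by norm_num, mul_pow]
        ring

theorem mass_lower_u (w M : ℕ) (hM : 2 ≤ M) :
    1 - tc w * (Real.log M) ^ w / M ≤ ∑ m ∈ Sm w M, fw w m / m := by
  have key : ∀ R : ℕ, 1 - tc w * (Real.log M) ^ w / M ≤
      ∑ m ∈ Sm w M, fw w m / m + w * ((2:ℝ) ^ R)⁻¹ := by
    intro R
    have hb := box_mass w R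
    obtain ⟨J, hJ⟩ : ∃ J : ℕ, ∀ e ∈ Bx w R, mk w e ≤ M * 2 ^ J := by
      refine ⟨∑ e ∈ Bx w R, mk w e, fun e he => ?_⟩
      have h1 : mk w e ≤ ∑ e ∈ Bx w R, mk w e := single_le_sum (fun _ _ => Nat.zero_le _) he
      have h2 : ∑ e ∈ Bx w R, mk w e < 2 ^ (∑ e ∈ Bx w R, mk w e) := Nat.lt_two_pow_self
      have h3 : 2 ^ (∑ e ∈ Bx w R, mk w e) ≤ M * 2 ^ (∑ e ∈ Bx w R, mk w e) :=
        Nat.le_mul_of_pos_left _ (by omega)
      omega
    have hsplit : ∑ e ∈ Bx w R, fw w (mk w e) / (mk w e : ℝ) ≤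
        ∑ m ∈ Sm w M, fw w m / m +
        ∑ m ∈ (Sm w (M * 2 ^ J)).filter (fun m => M < m), (1:ℝ) / m := by
      rw [← sum_filter_add_sum_filter_not (Bx w R) (fun e => mk w e ≤ M)]
      refine add_le_add ?_ ?_
      · rw [← sum_image (f := fun m : ℕ => fw w m / (m:ℝ)) (g := mk w)
          (fun e _ e' _ h => mk_inj h)]
        refine sum_le_sum_of_subset_of_nonneg ?_ (fun m _ _ =>
          div_nonneg (fw_nonneg w m) (by positivity))
        intro m hm
        rw [mem_image] at hm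
        obtain ⟨e, he, rfl⟩ := hm
        exact mk_mem e M (mem_filter.mp he).2
      · calc _ ≤ ∑ e ∈ (Bx w R).filter (fun e => ¬ mk w e ≤ M), (1:ℝ) / (mk w e : ℝ) := by
              refine sum_le_sum fun e _ => ?_
              exact div_le_div_of_nonneg_right (fw_le_one w _) (by positivity)
          _ = ∑ m ∈ ((Bx w R).filter (fun e => ¬ mk w e ≤ M)).image (mk w), (1:ℝ) / (m:ℝ) :=
              (sum_image (f := fun m : ℕ => (1:ℝ) / (m:ℝ)) (g := mk w)
                (fun e _ e' _ h => mk_inj h)).symm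
          _ ≤ _ := by
              refine sum_le_sum_of_subset_of_nonneg ?_ (fun m _ _ => by positivity)
              intro m hm
              rw [mem_image] at hm
              obtain ⟨e, he, rfl⟩ := hm
              rw [mem_filter] at he
              rw [mem_filter]
              exact ⟨mk_mem e _ (hJ e he.1), by omega⟩
    have ht := tail_u w M hM J
    linarith
  have hlim : Filter.Tendsto (fun R : ℕ => ∑ m ∈ Sm w M, fw w m / (m:ℝ) + w * ((2:ℝ) ^ R)⁻¹)
      Filter.atTop (nhds (∑ m ∈ Sm w M, fw w m / (m:ℝ) + w * 0)) := by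
    refine Filter.Tendsto.const_add _ (Filter.Tendsto.const_mul _ ?_)
    have := tendsto_pow_atTop_nhds_zero_of_lt_one (r := (1/2:ℝ)) (by norm_num) (by norm_num)
    refine this.congr fun R => ?_
    rw [one_div, inv_pow]
  rw [mul_zero, add_zero] at hlim
  exact ge_of_tendsto' hlim key

/-- every `w`-smooth number is in a box -/
theorem exists_mk (w M m : ℕ) (hm : m ∈ Sm w M) : ∃ e ∈ Bx w M, mk w e = m := by
  rw [mem_Sm] at hm
  refine ⟨fun i => m.factorization i, ?_, ?_⟩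
  · unfold Bx
    rw [Fintype.mem_piFinset]
    intro i
    rw [mem_range]
    have h1 : 2 ^ m.factorization i ≤ m := by
      calc 2 ^ m.factorization (i : ℕ) ≤ (i : ℕ) ^ m.factorization i :=
            Nat.pow_le_pow_left (PT_prime i).two_le _
        _ ≤ m := Nat.le_of_dvd (by omega) (Nat.ordProj_dvd m _)
    have h2 : m.factorization (i : ℕ) < 2 ^ m.factorization (i : ℕ) := Nat.lt_two_pow_self
    omega
  · refine Nat.eq_of_factorization_eq (mk_pos _).ne' (by omega) fun p => ?_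
    by_cases hp : p.Prime
    · by_cases hpw : p ≤ w
      · exact mk_fact (fun i : PT w => m.factorization i) ⟨p, mem_pr.mpr ⟨⟨hp.pos, hpw⟩, hp⟩⟩
      · rw [Nat.factorization_eq_zero_of_not_dvd (fun hd => hpw (hm.2 p hp hd)),
          Nat.factorization_eq_zero_of_not_dvd]
        intro hd
        obtain ⟨i, hi⟩ := mk_smooth _ p hp hd
        exact hpw (hi ▸ PT_le i)
    · rw [Nat.factorization_eq_zero_of_not_prime _ hp, Nat.factorization_eq_zero_of_not_prime _ hp]

theorem mass_upper (w M : ℕ) : ∑ m ∈ Sm w M, fw w m / m ≤ 1 := by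
  have h1 : ∑ m ∈ Sm w M, fw w m / m ≤ ∑ e ∈ Bx w M, fw w (mk w e) / (mk w e : ℝ) := by
    rw [← sum_image (f := fun m : ℕ => fw w m / (m:ℝ)) (g := mk w) (fun e _ e' _ h => mk_inj h)]
    refine sum_le_sum_of_subset_of_nonneg ?_ (fun m _ _ =>
          div_nonneg (fw_nonneg w m) (by positivity))
    intro m hm
    rw [mem_image]
    exact exists_mk w M m hm
  refine h1.trans ?_
  simp_rw [fw_mk]
  unfold Bx
  rw [← prod_univ_sum (fun _ : PT w => range (M + 1)) (fun i k => hh i k)]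
  apply prod_le_one
  · intro i _
    exact sum_nonneg fun k _ => hh_nonneg (PT_prime i) k
  · intro i _
    rw [sum_hh (PT_prime i)]
    have hp2 : (2:ℝ) ≤ (i : ℕ) := by exact_mod_cast (PT_prime i).two_le
    have : 0 ≤ (((i : ℕ) : ℝ) ^ M)⁻¹ / (((i : ℕ) : ℝ) - 1) := div_nonneg (by positivity) (by linarith)
    linarith

theorem box_one_u (w R : ℕ) (hR : 1 ≤ R) (hR2 : (w:ℝ) * ((2:ℝ) ^ R)⁻¹ ≤ 1) (j : PT w) :
    (1 - w * ((2:ℝ) ^ R)⁻¹) * (1 / (j:ℝ)) ≤
      ∑ e ∈ Bx w R, (e j : ℝ) * (fw w (mk w e) / (mk w e : ℝ)) := by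
  have h1 : ∀ e : PT w → ℕ, (e j : ℝ) * (fw w (mk w e) / (mk w e : ℝ)) =
      ∏ i : PT w, ((if i = j then (e i : ℝ) else 1) * hh i (e i)) := by
    intro e
    rw [fw_mk, prod_mul_distrib, prod_ite_eq']
    simp
  simp_rw [h1]
  unfold Bx
  rw [← prod_univ_sum (fun _ : PT w => range (R + 1))
    (fun i k => (if i = j then (k : ℝ) else 1) * hh i k)]
  rw [← mul_prod_erase univ _ (mem_univ j)]
  have h2 : 1 / (j:ℝ) ≤ ∑ k ∈ range (R + 1), (if j = j then (k : ℝ) else 1) * hh j k := by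
    have h3 : (if j = j then ((1:ℕ) : ℝ) else 1) * hh j 1 ≤
        ∑ k ∈ range (R + 1), (if j = j then (k : ℝ) else 1) * hh j k := by
      refine single_le_sum (f := fun k : ℕ => (if j = j then (k : ℝ) else 1) * hh j k)
        (fun k _ => ?_) (mem_range.mpr (by omega))
      exact mul_nonneg (by rw [if_pos rfl]; positivity) (hh_nonneg (PT_prime j) k)
    refine le_trans (le_of_eq ?_) h3
    rw [if_pos rfl]
    unfold hh
    simp
  have h4 : 1 - w * ((2:ℝ) ^ R)⁻¹ ≤ ∏ i ∈ univ.erase j, ∑ k ∈ range (R + 1),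
      (if i = j then (k : ℝ) else 1) * hh i k := by
    refine bern ((2:ℝ) ^ R)⁻¹ (by positivity)
      (inv_le_one_of_one_le₀ (one_le_pow₀ (by norm_num))) (univ.erase j)
      (fun i : PT w => ∑ k ∈ range (R + 1), (if i = j then (k : ℝ) else 1) * hh i k) ?_ w ?_
    · intro i hi
      rw [mem_erase] at hi
      simp only [if_neg hi.1, one_mul]
      exact sum_hh_ge (PT_prime i) R
    · refine (card_le_univ _).trans ?_
      exact card_PT w
  have hj : (0:ℝ) < j := by exact_mod_cast (PT_prime j).pos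
  rw [mul_comm]
  exact mul_le_mul h2 h4 (by linarith) (le_trans (by positivity) h2)

theorem mk_le (w R : ℕ) (e : PT w → ℕ) (he : e ∈ Bx w R) : mk w e ≤ 4 ^ (w * R) := by
  unfold Bx at he
  rw [Fintype.mem_piFinset] at he
  have h1 : mk w e ≤ ∏ i : PT w, (i : ℕ) ^ R := by
    unfold Pool.Agent.H85.Rho.mk
    apply prod_le_prod'
    intro i _
    apply Nat.pow_le_pow_right (PT_prime i).pos
    have := mem_range.mp (he i)
    omega
  refine h1.trans ?_
  rw [prod_pow, pow_mul]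
  apply Nat.pow_le_pow_left
  rw [prod_coe_sort (pr 0 w) (fun p => p)]
  refine le_trans (le_of_eq ?_) (primorial_le_four_pow w)
  rw [primorial]
  apply prod_congr _ (fun _ _ => rfl)
  ext p
  rw [mem_pr, mem_filter, mem_range]
  constructor
  · rintro ⟨⟨h1, h2⟩, h3⟩; exact ⟨by omega, h3⟩
  · rintro ⟨h1, h2⟩; exact ⟨⟨h2.pos, by omega⟩, h2⟩

theorem log_mass_u (w R M : ℕ) (hR : 1 ≤ R) (hR2 : (w:ℝ) * ((2:ℝ) ^ R)⁻¹ ≤ 1)
    (hM : 4 ^ (w * R) ≤ M) :
    (1 - w * ((2:ℝ) ^ R)⁻¹) * ∑ p ∈ pr 0 w, Real.log p / p ≤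
      ∑ m ∈ Sm w M, fw w m / m * Real.log m := by
  have h1 : ∑ e ∈ Bx w R, fw w (mk w e) / (mk w e : ℝ) * Real.log (mk w e) ≤
      ∑ m ∈ Sm w M, fw w m / m * Real.log m := by
    rw [← sum_image (f := fun m : ℕ => fw w m / (m:ℝ) * Real.log m) (g := mk w)
          (fun e _ e' _ h => mk_inj h)]
    refine sum_le_sum_of_subset_of_nonneg ?_ (fun m hm _ => ?_)
    · intro m hm
      rw [mem_image] at hm
      obtain ⟨e, he, rfl⟩ := hm
      exact mk_mem e M ((mk_le w R e he).trans hM)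
    · refine mul_nonneg (div_nonneg (fw_nonneg w m) (by positivity)) (Real.log_nonneg ?_)
      exact_mod_cast (mem_Sm.mp hm).1.1
  refine le_trans ?_ h1
  have h2 : ∑ e ∈ Bx w R, fw w (mk w e) / (mk w e : ℝ) * Real.log (mk w e) =
      ∑ i : PT w, Real.log i *
        ∑ e ∈ Bx w R, (e i : ℝ) * (fw w (mk w e) / (mk w e : ℝ)) := by
    simp_rw [log_mk, mul_sum]
    rw [sum_comm]
    refine sum_congr rfl fun i _ => sum_congr rfl fun e _ => ?_
    ring
  rw [h2, ← sum_coe_sort (pr 0 w) (fun p : ℕ => Real.log p / p), mul_sum]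
  refine sum_le_sum fun i _ => ?_
  have h3 := box_one_u w R hR hR2 i
  have h4 : 0 ≤ Real.log (i : ℕ) := Real.log_natCast_nonneg _
  calc (1 - w * ((2:ℝ) ^ R)⁻¹) * (Real.log (i : ℕ) / (i : ℕ))
      = Real.log (i : ℕ) * ((1 - w * ((2:ℝ) ^ R)⁻¹) * (1 / (i : ℕ))) := by ring
    _ ≤ _ := mul_le_mul_of_nonneg_left h3 h4

/-! ### Mertens -/

theorem log_fact_ge (n : ℕ) : n * Real.log n - n ≤ Real.log n.factorial := by
  rcases Nat.eq_zero_or_pos n with h | h
  · rw [h]; simp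
  · have hn : (0 : ℝ) < n := by exact_mod_cast h
    have h1 := Real.pow_div_factorial_le_exp (n : ℝ) hn.le n
    have h2 : Real.log ((n : ℝ) ^ n / n.factorial) ≤ n := by
      rw [Real.log_le_iff_le_exp (by positivity)]
      exact h1
    rw [Real.log_div (by positivity) (by positivity), Real.log_pow] at h2
    linarith

theorem mertens_first (n : ℕ) (hn : 1 ≤ n) :
    Real.log n - 1 ≤ ∑ p ∈ pr 0 n, Real.log p / ((p : ℝ) - 1) := by
  have hn0 : (0 : ℝ) < n := by exact_mod_cast hn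
  have h1 : Real.log n.factorial = ∑ p ∈ pr 0 n, (n.factorial.factorization p : ℝ) * Real.log p := by
    have h2 : n.factorial = ∏ p ∈ pr 0 n, p ^ n.factorial.factorization p := by
      conv_lhs => rw [← Nat.prod_factorization_pow_eq_self n.factorial_ne_zero]
      rw [Finsupp.prod]
      apply prod_subset
      · intro p hp
        rw [Nat.support_factorization, Nat.mem_primeFactors] at hp
        rw [mem_pr]
        exact ⟨⟨hp.1.pos, (hp.1.dvd_factorial).mp hp.2.1⟩, hp.1⟩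
      · intro p _ hp
        rw [Finsupp.notMem_support_iff] at hp
        rw [hp, pow_zero]
    conv_lhs => rw [h2]
    push_cast
    rw [Real.log_prod (fun p hp => pow_ne_zero _ (by exact_mod_cast (mem_pr.mp hp).2.ne_zero))]
    apply sum_congr rfl
    intro p _
    rw [Real.log_pow]
  have h3 := log_fact_ge n
  have h4 : ∑ p ∈ pr 0 n, (n.factorial.factorization p : ℝ) * Real.log p ≤
      n * ∑ p ∈ pr 0 n, Real.log p / ((p : ℝ) - 1) := by
    rw [mul_sum]
    apply sum_le_sum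
    intro p hp
    have hpp := (mem_pr.mp hp).2
    have hp2 : (2 : ℝ) ≤ p := by exact_mod_cast hpp.two_le
    have hl : 0 ≤ Real.log p := Real.log_natCast_nonneg p
    have : Fact p.Prime := ⟨hpp⟩
    have h5 : (p - 1) * n.factorial.factorization p ≤ n := by
      have h6 := sub_one_mul_padicValNat_factorial (p := p) n
      rw [Nat.factorization_def _ hpp]
      omega
    have h7 : ((p : ℝ) - 1) * n.factorial.factorization p ≤ n := by
      have : (((p - 1) * n.factorial.factorization p : ℕ) : ℝ) ≤ n := by exact_mod_cast h5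
      rw [Nat.cast_mul, Nat.cast_sub hpp.one_le] at this
      simpa using this
    have h8 : (n.factorial.factorization p : ℝ) ≤ n / ((p : ℝ) - 1) := by
      rw [le_div_iff₀ (by linarith)]
      linarith
    calc (n.factorial.factorization p : ℝ) * Real.log p ≤ n / ((p : ℝ) - 1) * Real.log p :=
          mul_le_mul_of_nonneg_right h8 hl
      _ = _ := by ring
  rw [h1] at h3
  have h9 : n * (Real.log n - 1) ≤ n * ∑ p ∈ pr 0 n, Real.log p / ((p : ℝ) - 1) := by linarith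
  exact le_of_mul_le_mul_left h9 hn0

theorem mertens_log : ∃ C : ℝ, 0 < C ∧ ∀ n : ℕ, 1 ≤ n →
    Real.log n - C ≤ ∑ p ∈ pr 0 n, Real.log p / (p : ℝ) := by
  have hsum : Summable (fun n : ℕ => (4 : ℝ) * (1 / (n : ℝ) ^ (3 / 2 : ℝ))) :=
    ((Real.summable_one_div_nat_rpow).mpr (by norm_num)).mul_left 4
  set S := ∑' n : ℕ, (4 : ℝ) * (1 / (n : ℝ) ^ (3 / 2 : ℝ)) with hS
  have hS0 : 0 ≤ S := tsum_nonneg fun n => by positivity
  refine ⟨1 + S, by linarith, fun n hn => ?_⟩
  have h1 := mertens_first n hn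
  have h2 : ∑ p ∈ pr 0 n, Real.log p / ((p : ℝ) - 1) ≤
      ∑ p ∈ pr 0 n, Real.log p / (p : ℝ) + ∑ p ∈ pr 0 n, (4 : ℝ) * (1 / (p : ℝ) ^ (3 / 2 : ℝ)) := by
    rw [← sum_add_distrib]
    apply sum_le_sum
    intro p hp
    have hpp := (mem_pr.mp hp).2
    have hp2 : (2 : ℝ) ≤ p := by exact_mod_cast hpp.two_le
    have hp0 : (0 : ℝ) < p := by linarith
    have hl : Real.log p ≤ (p : ℝ) ^ (1 / 2 : ℝ) / (1 / 2) := Real.log_le_rpow_div hp0.le (by norm_num)
    have e1 : Real.log p / ((p : ℝ) - 1) = Real.log p / p + Real.log p / (p * (p - 1)) := by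
      have : (p : ℝ) - 1 ≠ 0 := by linarith
      field_simp
      ring
    rw [e1]
    apply add_le_add le_rfl
    have e2 : (p : ℝ) ^ 2 = (p : ℝ) ^ (1 / 2 : ℝ) * (p : ℝ) ^ (3 / 2 : ℝ) := by
      rw [← Real.rpow_add hp0, ← Real.rpow_natCast]
      norm_num
    calc Real.log p / (p * (p - 1)) ≤ ((p : ℝ) ^ (1 / 2 : ℝ) / (1 / 2)) / ((p : ℝ) ^ 2 / 2) := by
          apply div_le_div₀ (by positivity) hl (by positivity)
          nlinarith
      _ = 4 * (1 / (p : ℝ) ^ (3 / 2 : ℝ)) := by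
          rw [e2]
          have h3 : 0 < (p : ℝ) ^ (1 / 2 : ℝ) := by positivity
          have h4 : 0 < (p : ℝ) ^ (3 / 2 : ℝ) := by positivity
          field_simp
          norm_num
  have h3 : ∑ p ∈ pr 0 n, (4 : ℝ) * (1 / (p : ℝ) ^ (3 / 2 : ℝ)) ≤ S :=
    hsum.sum_le_tsum _ (fun _ _ => by positivity)
  linarith

theorem sq_le_two_pow (w : ℕ) : w ^ 2 ≤ 2 * 2 ^ w := by
  rcases Nat.lt_or_ge w 3 with h | h
  · interval_cases w <;> norm_num
  · induction w, h using Nat.le_induction with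
    | base => norm_num
    | succ w hw ih =>
      rw [pow_succ 2 w]
      nlinarith

/-- the second-order gain -/
theorem gain : ∃ C : ℝ, 0 < C ∧ ∀ w M : ℕ, 1 ≤ w → 4 ^ (w * w) ≤ M →
    Real.log w - C ≤ ∑ m ∈ Sm w M, fw w m / m * Real.log m := by
  obtain ⟨C, hC, h⟩ := mertens_log
  refine ⟨C + 2, by linarith, fun w M hw hM => ?_⟩
  have hw0 : (0 : ℝ) < w := by exact_mod_cast hw
  have h2w : (0 : ℝ) < 2 ^ w := by positivity
  set x : ℝ := w * ((2:ℝ) ^ w)⁻¹ with hx
  have hx0 : 0 ≤ x := by positivity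
  have hx1 : x ≤ 1 := by
    rw [hx, ← div_eq_mul_inv, div_le_one h2w]
    exact_mod_cast (Nat.lt_two_pow_self (n := w)).le
  have h1 := log_mass_u w w M hw hx1 hM
  refine le_trans ?_ h1
  have h2 := h w hw
  have hlog0 : 0 ≤ Real.log w := Real.log_natCast_nonneg w
  have h3 : x * Real.log w ≤ 2 := by
    have h4 : Real.log w ≤ w := by
      have := Real.log_le_sub_one_of_pos hw0
      linarith
    have h5 : x * Real.log w ≤ x * w := mul_le_mul_of_nonneg_left h4 hx0
    have h6 : x * w ≤ 2 := by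
      rw [hx, mul_assoc, mul_comm ((2:ℝ) ^ w)⁻¹ _, ← mul_assoc, ← div_eq_mul_inv, div_le_iff₀ h2w]
      have := sq_le_two_pow w
      have h7 : ((w : ℝ)) ^ 2 ≤ 2 * 2 ^ w := by exact_mod_cast this
      nlinarith
    linarith
  have h8 : (1 - x) * (Real.log w - C) ≤ (1 - x) * ∑ p ∈ pr 0 w, Real.log p / (p : ℝ) :=
    mul_le_mul_of_nonneg_left h2 (by linarith)
  nlinarith [mul_nonneg hx0 hC.le]

end RhoU
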