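import Pool.Agent.H7.RhoU.Cost1
import Pool.Agent.H80.Rho.G1

/-!
# Dense admissible sets, uniform version: the total cost
-/

set_option autoImplicit false

open Finset Real
open Pool.Agent.H85.Rho hiding PP MM TT

namespace RhoU

/-- the cost of all primes `q`, from the statement of `cost_one` -/
theorem cost_of_u {κ ε : ℝ} (hκ : 0 < κ) (hκ1 : κ ≤ 1 / 2) (hε : 0 < ε) (hκε : 2 * κ + ε < 1)
    (η : ℝ) (hη : 0 < η) : ∃ y0 : ℕ, ∀ y : ℕ, y0 ≤ y → ∀ w : ℕ, 2 ≤ w →
    (w : ℝ) ≤ (Real.log (Real.log y) / 2) ^ (1 / 2 : ℝ) → ∃ c : ℕ → ℕ,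
    (∑ q ∈ pr (PPk κ y) (QQ y),
      (((Finset.Icc 1 y).filter (fun n => n ≡ c q [MOD q] ∧
        ∀ p ∈ pr w (PPk κ y), ¬ p ∣ n)).card : ℝ)) ≤ η * y / (Real.log y) ^ 2 := by
  obtain ⟨C1, hC1, y1, h1⟩ := cost_one_u hκ hκ1 hε (by linarith)
  obtain ⟨C2, hC2, h2⟩ := recip_sum
  -- the numerical conditions
  have hlogy : Filter.Tendsto (fun y : ℕ => Real.log (y : ℝ)) Filter.atTop Filter.atTop :=
    Real.tendsto_log_atTop.comp tendsto_natCast_atTop_atTop
  have hev1 : ∀ᶠ y : ℕ in Filter.atTop, 1 ≤ Real.log (Real.log (y : ℝ)) :=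
    (Real.tendsto_log_atTop.comp hlogy).eventually_ge_atTop 1
  have hev2 : ∀ᶠ y : ℕ in Filter.atTop,
      Real.log 2 + 2 * Real.log (Real.log (y : ℝ)) ≤ Real.log y / 2 := by
    have : ∀ᶠ u : ℝ in Filter.atTop, Real.log 2 + 2 * Real.log u ≤ u / 2 := by
      have h3 : Filter.Tendsto (fun u : ℝ => Real.log u / u) Filter.atTop (nhds 0) := by
        have := Real.isLittleO_log_id_atTop.tendsto_div_nhds_zero
        simpa using this
      filter_upwards [h3.eventually_lt_const (show (0 : ℝ) < 1 / 8 by norm_num),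
        Filter.eventually_ge_atTop (8 : ℝ)] with u hu hu8
      rw [div_lt_iff₀ (by linarith)] at hu
      have := Real.log_two_lt_d9
      linarith
    exact hlogy.eventually this
  have hev3 : ∀ᶠ y : ℕ in Filter.atTop,
      2 * C1 * C2 * (1 + Real.log 16 + Real.log (Real.log (y : ℝ)) ^ κ) /
        Real.log (Real.log (y : ℝ)) ^ (1 - κ - ε) ≤ η := by
    have : ∀ᶠ v : ℝ in Filter.atTop,
        2 * C1 * C2 * (1 + Real.log 16 + v ^ κ) / v ^ (1 - κ - ε) ≤ η := by
      have h3 : Filter.Tendsto (fun v : ℝ => v ^ (-(1 - 2 * κ - ε))) Filter.atTop (nhds 0) :=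
        tendsto_rpow_neg_atTop (by linarith)
      have h4 : Filter.Tendsto (fun v : ℝ => v ^ (-(1 - κ - ε))) Filter.atTop (nhds 0) :=
        tendsto_rpow_neg_atTop (by linarith)
      have h5 : Filter.Tendsto (fun v : ℝ => 2 * C1 * C2 * ((1 + Real.log 16) * v ^ (-(1 - κ - ε)) +
          v ^ (-(1 - 2 * κ - ε)))) Filter.atTop (nhds 0) := by
        have := ((h4.const_mul (1 + Real.log 16)).add h3).const_mul (2 * C1 * C2)
        simpa using this
      filter_upwards [h5.eventually_lt_const hη, Filter.eventually_gt_atTop (0 : ℝ)] with v hv hv0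
      refine le_of_eq_of_le ?_ hv.le
      have h7 : v ^ (-(1 - 2 * κ - ε)) = v ^ κ * v ^ (-(1 - κ - ε)) := by
        rw [← Real.rpow_add hv0]; congr 1; ring
      rw [h7, Real.rpow_neg hv0.le]
      have h8 : 0 < v ^ (1 - κ - ε) := Real.rpow_pos_of_pos hv0 _
      field_simp
    exact (Real.tendsto_log_atTop.comp hlogy).eventually this
  obtain ⟨y2, hy2⟩ := Filter.eventually_atTop.mp (hev1.and (hev2.and hev3))
  refine ⟨max (max y1 y2) 2, fun y hy w hw2 hww => ?_⟩
  have hyy1 : y1 ≤ y := (le_max_left _ _).trans ((le_max_left _ _).trans hy)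
  have hyy2 : y2 ≤ y := (le_max_right _ _).trans ((le_max_left _ _).trans hy)
  have hy3 : 2 ≤ y := (le_max_right _ _).trans hy
  obtain ⟨hv1, hv2, hv3⟩ := hy2 y hyy2
  have hy0 : (0 : ℝ) < y := by exact_mod_cast (by omega : 0 < y)
  have hone' := h1 y hyy1 w hw2 hww
  choose! c hc using hone'
  refine ⟨c, ?_⟩
  have hTT : TTk κ (y : ℝ) = Real.log y * Real.exp ((Real.log (Real.log y)) ^ κ) := rfl
  set u := Real.log (y : ℝ) with hu
  set v := Real.log u with hv
  have hu0 : 0 < u := by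
    by_contra hcon
    push Not at hcon
    have h3 : 0 ≤ u := Real.log_natCast_nonneg y
    have : u = 0 := le_antisymm hcon h3
    rw [this, Real.log_zero] at hv
    linarith
  have hu2 : 2 < u := by
    have h3 : Real.exp 1 ≤ u := by
      rw [← Real.exp_log hu0]
      exact Real.exp_le_exp.mpr hv1
    have := Real.exp_one_gt_d9
    linarith
  have hv0 : 0 < v := by linarith
  have hv4 : 0 < v ^ κ := Real.rpow_pos_of_pos hv0 _
  have hv4le : v ^ κ ≤ v := by
    calc v ^ κ ≤ v ^ (1 : ℝ) := Real.rpow_le_rpow_of_exponent_le hv1 (by linarith)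
      _ = v := Real.rpow_one v
  have hv20 : 0 < v ^ (1 - κ - ε) := Real.rpow_pos_of_pos hv0 _
  set E := Real.exp (v ^ κ) with hE
  have hE1 : 1 ≤ E := Real.one_le_exp hv4.le
  have hT0 : 0 < TTk κ (y : ℝ) := by rw [hTT]; positivity
  -- `2 T ≤ exp(u/2)`
  have hT2 : 2 * TTk κ (y : ℝ) ≤ Real.exp (u / 2) := by
    have h3 : Real.log (2 * TTk κ (y : ℝ)) ≤ u / 2 := by
      rw [hTT, Real.log_mul (by norm_num) (by positivity), Real.log_mul (by positivity)
        (by positivity), hE, Real.log_exp]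
      linarith
    calc 2 * TTk κ (y : ℝ) = Real.exp (Real.log (2 * TTk κ (y : ℝ))) :=
          (Real.exp_log (by positivity)).symm
      _ ≤ _ := Real.exp_le_exp.mpr h3
  have hyexp : (y : ℝ) = Real.exp (u / 2) * Real.exp (u / 2) := by
    rw [← Real.exp_add, add_halves, hu, Real.exp_log hy0]
  have he2 : 2 ≤ Real.exp (u / 2) := by
    have := Real.add_one_le_exp (u / 2)
    linarith
  -- `P ≥ y / (2 T)`
  have hdiv : Real.exp (u / 2) ≤ y / (2 * TTk κ (y : ℝ)) := by
    rw [le_div_iff₀ (by positivity)]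
    calc Real.exp (u / 2) * (2 * TTk κ (y : ℝ)) ≤ Real.exp (u / 2) * Real.exp (u / 2) :=
          mul_le_mul_of_nonneg_left hT2 (by positivity)
      _ = y := hyexp.symm
  have hPreal : (y : ℝ) / (2 * TTk κ (y : ℝ)) ≤ (PPk κ y : ℕ) := by
    have h3 : (y : ℝ) / TTk κ (y : ℝ) < (PPk κ y : ℕ) + 1 := Nat.lt_floor_add_one _
    have h4 : (y : ℝ) / TTk κ (y : ℝ) = 2 * (y / (2 * TTk κ (y : ℝ))) := by field_simp
    linarith
  have hPexp : Real.exp (u / 2) ≤ (PPk κ y : ℕ) := hdiv.trans hPreal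
  have hP2 : 2 ≤ PPk κ y := by
    have : (2 : ℝ) ≤ (PPk κ y : ℕ) := he2.trans hPexp
    exact_mod_cast this
  have hP0 : (0 : ℝ) < (PPk κ y : ℕ) := by exact_mod_cast (by omega : 0 < PPk κ y)
  have hlogP : u / 2 ≤ Real.log (PPk κ y : ℕ) := by
    rw [Real.le_log_iff_exp_le hP0]; exact hPexp
  have hPQ : PPk κ y ≤ QQ y := by
    apply Nat.floor_le_floor
    rw [div_le_div_iff₀ hT0 hu0, hTT]
    have : (y : ℝ) * u ≤ (y : ℝ) * u * (8 * E) := by
      apply le_mul_of_one_le_right (by positivity)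
      linarith
    nlinarith
  have hQreal : ((QQ y : ℕ) : ℝ) ≤ 8 * y / u := Nat.floor_le (by positivity)
  have hratio : ((QQ y : ℕ) : ℝ) / (PPk κ y : ℕ) ≤ 16 * E := by
    rw [div_le_iff₀ hP0]
    calc ((QQ y : ℕ) : ℝ) ≤ 8 * y / u := hQreal
      _ = 16 * E * (y / (2 * TTk κ (y : ℝ))) := by rw [hTT]; field_simp; norm_num
      _ ≤ _ := mul_le_mul_of_nonneg_left hPreal (by positivity)
  have hlogratio : Real.log (((QQ y : ℕ) : ℝ) / (PPk κ y : ℕ)) ≤ Real.log 16 + v ^ κ := by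
    have hQ0 : (0 : ℝ) < (QQ y : ℕ) := by exact_mod_cast (by omega : 0 < QQ y)
    calc Real.log (((QQ y : ℕ) : ℝ) / (PPk κ y : ℕ)) ≤ Real.log (16 * E) :=
          Real.log_le_log (by positivity) hratio
      _ = _ := by rw [Real.log_mul (by norm_num) (by positivity), hE, Real.log_exp]
  have hrecip := h2 (PPk κ y) (QQ y) hP2 hPQ
  have hl16 : 0 < Real.log 16 := Real.log_pos (by norm_num)
  calc (∑ q ∈ pr (PPk κ y) (QQ y),
      (((Finset.Icc 1 y).filter (fun n => n ≡ c q [MOD q] ∧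
        ∀ p ∈ pr w (PPk κ y), ¬ p ∣ n)).card : ℝ))
      ≤ ∑ q ∈ pr (PPk κ y) (QQ y), C1 * (y / q) / (u * v ^ (1 - κ - ε)) :=
        Finset.sum_le_sum fun q hq => hc q hq
    _ = (C1 * y / (u * v ^ (1 - κ - ε))) * ∑ q ∈ pr (PPk κ y) (QQ y), (1 : ℝ) / q := by
        rw [Finset.mul_sum]
        apply Finset.sum_congr rfl
        intro q _
        ring
    _ ≤ (C1 * y / (u * v ^ (1 - κ - ε))) *
        (C2 * (1 + Real.log (((QQ y : ℕ) : ℝ) / (PPk κ y : ℕ))) / Real.log (PPk κ y : ℕ)) :=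
        mul_le_mul_of_nonneg_left hrecip (by positivity)
    _ ≤ (C1 * y / (u * v ^ (1 - κ - ε))) *
        (C2 * (1 + (Real.log 16 + v ^ κ)) / (u / 2)) := by
        apply mul_le_mul_of_nonneg_left _ (by positivity)
        apply div_le_div₀ (by positivity) _ (by positivity) hlogP
        apply mul_le_mul_of_nonneg_left _ hC2.le
        linarith
    _ = (2 * C1 * C2 * (1 + Real.log 16 + v ^ κ) / v ^ (1 - κ - ε)) * (y / u ^ 2) := by
        field_simp
        ring
    _ ≤ η * (y / u ^ 2) := mul_le_mul_of_nonneg_right hv3 (by positivity)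
    _ = η * y / u ^ 2 := by ring

end RhoU
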