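import Pool.Agent.H7.RhoU.Surv
import Pool.Agent.H7.RhoU.Cost2
import Pool.Agent.H85.Rho.Fin

/-!
# Dense admissible sets in `[1,y]` for all large `y`
-/

set_option autoImplicit false

open Finset Real
open Pool.Agent.H85.Rho hiding PP MM TT

namespace RhoU

/-- Chebyshev: `π(y) + C y / (log y)^2 ≤ Q(y)` for large `y` and all `C ≤ log y` -/
theorem QQ_ge_u : ∀ᶠ y : ℕ in Filter.atTop, ∀ C : ℝ, C ≤ Real.log y →
    (Nat.primeCounting y : ℝ) + C * y / (Real.log y) ^ 2 ≤ QQ y := by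
  have hl : Filter.Tendsto (fun y : ℕ => Real.log (y : ℝ)) Filter.atTop Filter.atTop :=
    Real.tendsto_log_atTop.comp tendsto_natCast_atTop_atTop
  have h0 := (isLittleO_log_rpow_atTop (r := 1 / 2) (by norm_num)).bound (c := 1) one_pos
  have h2 : ∀ᶠ y : ℕ in Filter.atTop, Real.log (y : ℝ) ≤ Real.sqrt y := by
    filter_upwards [tendsto_natCast_atTop_atTop.eventually h0] with y hy
    rw [← Real.sqrt_eq_rpow] at hy
    simp only [one_mul, Real.norm_eq_abs] at hy
    calc _ ≤ |Real.log (y : ℝ)| := le_abs_self _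
      _ ≤ |Real.sqrt (y : ℝ)| := hy
      _ = _ := abs_of_nonneg (Real.sqrt_nonneg _)
  filter_upwards [hl.eventually_ge_atTop 1, Filter.eventually_ge_atTop 2, h2] with y hL1 hy2 h3 C hC
  have hL : 0 < Real.log (y : ℝ) := lt_of_lt_of_le one_pos hL1
  have hy1 : (1 : ℝ) < y := by exact_mod_cast (by omega : 1 < y)
  have hch := Chebyshev.pi_le_log4_mul_div hy1
  rw [Nat.floor_natCast] at hch
  have h4 : Real.log 4 ≤ 1.4 := by
    have : Real.log 4 = 2 * Real.log 2 := by
      rw [show (4 : ℝ) = 2 ^ 2 by norm_num, Real.log_pow]; norm_num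
    rw [this]
    have := Real.log_two_lt_d9
    linarith
  have h5 : Real.log (Real.sqrt y) = Real.log y / 2 := Real.log_sqrt (by positivity)
  rw [h5] at hch
  have h6 : Real.sqrt y ≤ y / Real.log y := by
    rw [le_div_iff₀ hL]
    calc Real.sqrt y * Real.log y ≤ Real.sqrt y * Real.sqrt y := by gcongr
      _ = y := Real.mul_self_sqrt (by positivity)
  have h7 : Real.log 4 * y / (Real.log y / 2) ≤ 2.8 * (y / Real.log y) := by
    rw [show Real.log 4 * y / (Real.log y / 2) = 2 * Real.log 4 * (y / Real.log y) by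
      field_simp]
    gcongr
    linarith
  have h8 : C * y / (Real.log y) ^ 2 ≤ y / Real.log y := by
    rw [div_le_div_iff₀ (by positivity) hL]
    have : 0 ≤ (y : ℝ) * Real.log y := by positivity
    nlinarith
  have h9 : 1 ≤ y / Real.log y := by
    rw [le_div_iff₀ hL]
    have := Real.add_one_le_exp (Real.log y - 1)
    have e : Real.log y ≤ y := by
      have := Real.log_le_sub_one_of_pos (show (0 : ℝ) < y by positivity)
      linarith
    linarith
  have h10 : 8 * (y : ℝ) / Real.log y < QQ y + 1 := Nat.lt_floor_add_one _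
  have h11 : 8 * (y : ℝ) / Real.log y = 8 * (y / Real.log y) := by ring
  linarith

/-- the assembly for one `y` -/
theorem assemble {κ : ℝ} {y w : ℕ} {g : ℝ} (hwP : w ≤ PPk κ y)
    (hQ : (Nat.primeCounting y : ℝ) + g * y / (Real.log y) ^ 2 ≤ QQ y)
    (hmain : (Nat.primeCounting y : ℝ) + (g + 1) * y / (Real.log y) ^ 2 ≤
      ∑ m ∈ Sm w (MMk κ y), fw w m *
        ((Nat.primeCounting (y / m) : ℝ) - Nat.primeCounting (PPk κ y)))
    (hcost : ∃ c : ℕ → ℕ,
      (∑ q ∈ pr (PPk κ y) (QQ y),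
        (((Finset.Icc 1 y).filter (fun n => n ≡ c q [MOD q] ∧
          ∀ p ∈ pr w (PPk κ y), ¬ p ∣ n)).card : ℝ)) ≤ 1 * y / (Real.log y) ^ 2) :
    ∃ A : Finset ℕ, A ⊆ Finset.Icc 1 y ∧ Adm A ∧
      (Nat.primeCounting y : ℝ) + g * y / (Real.log y) ^ 2 ≤ A.card := by
  classical
  obtain ⟨c, hc⟩ := hcost
  set N := NN w (MMk κ y) (PPk κ y) y with hN
  obtain ⟨a, ha, haN⟩ := exists_classes N w
  set S := N.filter (fun n => ∀ p ∈ pr 0 w, ¬ n ≡ a p [MOD p]) with hSdef
  set Q := pr (PPk κ y) (QQ y) with hQdef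
  set A0 := S.filter (fun n => ∀ q ∈ Q, ¬ n ≡ c q [MOD q]) with hA0
  have hScard : (Nat.primeCounting y : ℝ) + (g + 1) * y / (Real.log y) ^ 2 ≤ S.card :=
    hmain.trans ((sum_NN hwP).trans haN)
  have hcost' : ∑ q ∈ Q, ((S.filter (fun n => n ≡ c q [MOD q])).card : ℝ) ≤
      1 * y / (Real.log y) ^ 2 := by
    refine le_trans ?_ hc
    refine Finset.sum_le_sum fun q _ => ?_
    have : S.filter (fun n => n ≡ c q [MOD q]) ⊆ (Finset.Icc 1 y).filter (fun n => n ≡ c q [MOD q] ∧
        ∀ p ∈ pr w (PPk κ y), ¬ p ∣ n) := by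
      intro n hn
      rw [Finset.mem_filter, hSdef, Finset.mem_filter] at hn
      have hb := NN_bd hn.1.1
      exact Finset.mem_filter.2 ⟨hb.1, hn.2, hb.2⟩
    exact_mod_cast Finset.card_le_card this
  have hA0card : (Nat.primeCounting y : ℝ) + g * y / (Real.log y) ^ 2 ≤ A0.card := by
    have h3 := card_diff_le S Q c
    have e : (g + 1) * (y : ℝ) / (Real.log y) ^ 2 = g * y / (Real.log y) ^ 2 +
        1 * y / (Real.log y) ^ 2 := by ring
    rw [e] at hScard
    linarith
  obtain ⟨A, hAA, hAcard⟩ := Finset.exists_subset_card_eq (s := A0) (n := min A0.card (QQ y))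
    (min_le_left _ _)
  have hAN : A ⊆ N := hAA.trans ((Finset.filter_subset _ _).trans (Finset.filter_subset _ _))
  refine ⟨A, fun n hn => (NN_bd (hAN hn)).1, ?_, ?_⟩
  · intro p hp
    by_cases hp1 : p ≤ w
    · refine ⟨a p, fun n hn => ?_⟩
      have h4 := (Finset.mem_filter.1 (Finset.mem_filter.1 (hAA hn)).1).2
      exact h4 p (mem_pr.2 ⟨⟨hp.pos, hp1⟩, hp⟩)
    · by_cases hp2 : p ≤ PPk κ y
      · refine ⟨0, fun n hn hn0 => ?_⟩
        have h4 := (NN_bd (hAN hn)).2 p (mem_pr.2 ⟨⟨by omega, hp2⟩, hp⟩)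
        exact h4 ((Nat.modEq_zero_iff_dvd).1 hn0)
      · by_cases hp3 : p ≤ QQ y
        · refine ⟨c p, fun n hn => ?_⟩
          have h4 := (Finset.mem_filter.1 (hAA hn)).2
          exact h4 p (mem_pr.2 ⟨⟨by omega, hp3⟩, hp⟩)
        · apply misses
          rw [hAcard]
          exact lt_of_le_of_lt (min_le_right _ _) (by omega)
  · rw [hAcard, Nat.cast_min]
    exact le_min hA0card hQ

/-- dense admissible sets for all large `y` -/
theorem dense_all {c : ℝ} (hc : c < 1 / 2) : ∀ᶠ y : ℕ in Filter.atTop,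
    ∃ A : Finset ℕ, A ⊆ Finset.Icc 1 y ∧ Adm A ∧
      (Nat.primeCounting y : ℝ) + c * Real.log (Real.log (Real.log y)) * y / (Real.log y) ^ 2 ≤
        A.card := by
  set c' : ℝ := max c 0 with hc'
  have hc'0 : 0 ≤ c' := le_max_right _ _
  have hcc' : c ≤ c' := le_max_left _ _
  have hc'1 : c' < 1 / 2 := max_lt hc (by norm_num)
  set κ' : ℝ := (c' + 1 / 2) / 2 with hκ'd
  set κ : ℝ := (κ' + 1 / 2) / 2 with hκd
  have hκ'0 : 0 < κ' := by rw [hκ'd]; linarith
  have hcκ' : c' < κ' := by rw [hκ'd]; linarith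
  have hκ'1 : κ' < 1 / 2 := by rw [hκ'd]; linarith
  have hκκ : κ' < κ := by rw [hκd]; linarith
  have hκ1 : κ < 1 / 2 := by rw [hκd]; linarith
  have hκ0 : 0 < κ := by linarith
  set ε : ℝ := (1 - 2 * κ) / 2 with hε
  have hε0 : 0 < ε := by rw [hε]; linarith
  obtain ⟨K, hS⟩ := survivors hκ'0 hκκ hκ1.le
  obtain ⟨y0, hcost⟩ := cost_of_u hκ0 hκ1.le hε0 (by rw [hε]; linarith) 1 one_pos
  have hll : Filter.Tendsto (fun y : ℕ => Real.log (Real.log (y : ℝ))) Filter.atTop Filter.atTop :=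
    Real.tendsto_log_atTop.comp tendsto_logN
  have hlll : Filter.Tendsto (fun y : ℕ => Real.log (Real.log (Real.log (y : ℝ)))) Filter.atTop
      Filter.atTop := Real.tendsto_log_atTop.comp hll
  have hbig : ∀ᶠ y : ℕ in Filter.atTop, K + 1 ≤
      (κ' - c') * Real.log (Real.log (Real.log (y : ℝ))) :=
    (hlll.const_mul_atTop (by linarith)).eventually_ge_atTop _
  filter_upwards [hS, hbig, Filter.eventually_ge_atTop y0, QQ_ge_u,
    hlll.eventually_ge_atTop 0, hll.eventually_ge_atTop 1, tendsto_logN.eventually_ge_atTop 1,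
    Filter.eventually_ge_atTop 1] with
    y hy hK hy0 hQ hl0 hll1 hl1 hy1
  obtain ⟨hw2, hww, hwP, hmain⟩ := hy
  set l3 := Real.log (Real.log (Real.log (y : ℝ))) with hl3
  have hyR : (0 : ℝ) < y := by exact_mod_cast hy1
  have hl3le : l3 ≤ Real.log y := by
    have h1 : l3 ≤ Real.log (Real.log y) := by
      have := Real.log_le_sub_one_of_pos (show 0 < Real.log (Real.log (y : ℝ)) by linarith)
      linarith
    have h2 : Real.log (Real.log y) ≤ Real.log y := by
      have := Real.log_le_sub_one_of_pos (show 0 < Real.log (y : ℝ) by linarith)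
      linarith
    linarith
  have hcl : c * l3 ≤ Real.log y := by nlinarith
  refine assemble (κ := κ) (w := ww κ' y) (g := c * l3) hwP (hQ (c * l3) hcl) ?_ ?_
  · refine le_trans ?_ hmain
    have h1 : c * l3 + 1 ≤ κ' * l3 - K := by nlinarith
    have h2 : (c * l3 + 1) * y / (Real.log y) ^ 2 ≤ (κ' * l3 - K) * y / (Real.log y) ^ 2 := by
      gcongr
    linarith
  · exact hcost y hy0 (ww κ' y) hw2 hww

end RhoU
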