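import Pool.Agent.H7.RhoU.Cover
import Pool.Agent.H85.Rho.G2

/-!
# Dense admissible sets, uniform version: the cost of one prime
-/

set_option autoImplicit false

open Finset Real
open Pool.Agent.H85.Rho hiding PP MM TT

namespace RhoU

/-- `T(y) = log y * exp((log log y)^κ)` -/
noncomputable def TTk (κ y : ℝ) : ℝ := Real.log y * Real.exp ((Real.log (Real.log y)) ^ κ)

/-- `⌊T(y)⌋` -/
noncomputable def MMk (κ : ℝ) (y : ℕ) : ℕ := ⌊TTk κ y⌋₊

/-- `⌊y / T(y)⌋` -/
noncomputable def PPk (κ : ℝ) (y : ℕ) : ℕ := ⌊(y : ℝ) / TTk κ y⌋₊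

theorem TTk_le {κ : ℝ} (hκ : 0 < κ) (hκ1 : κ ≤ 1 / 2) (y : ℝ) (hy : Real.exp 1 ≤ Real.log y) :
    TTk κ y ≤ (Real.log y) ^ 2 := by
  unfold TTk
  have h0 : 0 < Real.log y := (Real.exp_pos 1).trans_le hy
  have h1 : 1 ≤ Real.log (Real.log y) := by
    rw [← Real.log_exp 1]
    exact Real.log_le_log (Real.exp_pos 1) hy
  have h2 : (Real.log (Real.log y)) ^ κ ≤ Real.log (Real.log y) := by
    calc (Real.log (Real.log y)) ^ κ ≤ (Real.log (Real.log y)) ^ (1 : ℝ) :=
          Real.rpow_le_rpow_of_exponent_le h1 (by linarith)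
      _ = _ := Real.rpow_one _
  have h3 : Real.exp ((Real.log (Real.log y)) ^ κ) ≤ Real.log y := by
    calc _ ≤ Real.exp (Real.log (Real.log y)) := Real.exp_le_exp.2 h2
      _ = _ := Real.exp_log h0
  nlinarith

theorem cost_one_u {κ ε : ℝ} (hκ : 0 < κ) (hκ1 : κ ≤ 1 / 2) (hε : 0 < ε) (hκε : κ + ε ≤ 1) :
    ∃ C : ℝ, 0 < C ∧ ∃ y0 : ℕ, ∀ y : ℕ, y0 ≤ y → ∀ w : ℕ, 2 ≤ w →
    (w : ℝ) ≤ (Real.log (Real.log y) / 2) ^ (1 / 2 : ℝ) → ∀ q ∈ pr (PPk κ y) (QQ y),
    ∃ c : ℕ, (((Finset.Icc 1 y).filter (fun n => n ≡ c [MOD q] ∧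
        ∀ p ∈ pr w (PPk κ y), ¬ p ∣ n)).card : ℝ) ≤
      C * (y / q) / (Real.log y * (Real.log (Real.log y)) ^ (1 - κ - ε)) := by
  obtain ⟨z0, hcov⟩ := cover_u hκ hε
  obtain ⟨C1, hC1, hsv⟩ := sieve_ap
  refine ⟨12 * C1, by positivity, ?_⟩
  -- eventual facts
  have hll : Filter.Tendsto (fun y : ℕ => Real.log (Real.log (y : ℝ))) Filter.atTop Filter.atTop :=
    Real.tendsto_log_atTop.comp tendsto_logN
  have hllκ : Filter.Tendsto (fun y : ℕ => (Real.log (Real.log (y : ℝ)) / 2) ^ κ) Filter.atTop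
      Filter.atTop :=
    (tendsto_rpow_atTop hκ).comp (hll.atTop_div_const (by norm_num))
  have ev : ∀ᶠ y : ℕ in Filter.atTop, ∀ w : ℕ, 2 ≤ w →
    (w : ℝ) ≤ (Real.log (Real.log y) / 2) ^ (1 / 2 : ℝ) → ∀ q ∈ pr (PPk κ y) (QQ y),
    ∃ c : ℕ, (((Finset.Icc 1 y).filter (fun n => n ≡ c [MOD q] ∧
        ∀ p ∈ pr w (PPk κ y), ¬ p ∣ n)).card : ℝ) ≤
      12 * C1 * (y / q) / (Real.log y * (Real.log (Real.log y)) ^ (1 - κ - ε)) := by
    filter_upwards [tendsto_logN.eventually_ge_atTop (4 * ((z0 : ℕ) + 100 : ℝ)),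
      hll.eventually_ge_atTop 120, ev_pow 2 (3 / 20) (by norm_num) 2,
      ev_pow 3 (7 / 8) (by norm_num) 1, Filter.eventually_ge_atTop 3,
      hllκ.eventually_ge_atTop 4] with y hL1 hll1 h3 h4 hy3 hllk4
    intro w hw2 hww q hq
    rw [mem_pr] at hq
    obtain ⟨⟨hqP, hqQ⟩, hqp⟩ := hq
    set L := Real.log (y : ℝ) with hL
    have hmax : (0 : ℝ) ≤ (z0 : ℕ) := Nat.cast_nonneg _
    have hL400 : 400 ≤ L := by linarith
    have hL0 : 0 < L := by linarith
    have hy0 : (0 : ℝ) < y := by
      have : 0 < y := by omega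
      exact_mod_cast this
    have hyexp : Real.exp L = y := Real.exp_log hy0
    set z := ⌊L / 4⌋₊ with hz
    have hzle : (z : ℝ) ≤ L / 4 := Nat.floor_le (by positivity)
    have hzgt : L / 4 < z + 1 := Nat.lt_floor_add_one _
    have hzmax : z0 + 99 ≤ z := by
      rw [hz, Nat.le_floor_iff (by positivity)]
      push_cast
      linarith
    have hzz0 : z0 ≤ z := by omega
    have hz99 : 99 ≤ z := by omega
    have hlogL50 : 120 ≤ Real.log L := hll1
    have hlogLle : Real.log L ≤ L := by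
      have := Real.add_one_le_exp (Real.log L)
      rw [Real.exp_log hL0] at this
      linarith
    have hlogz : Real.log L / 2 ≤ Real.log z := by
      have h5 : Real.sqrt L ≤ z := by
        have h6 : Real.sqrt L ≤ L / 4 - 1 := by
          have h7 : Real.sqrt L * Real.sqrt L = L := Real.mul_self_sqrt hL0.le
          have h8 : 20 ≤ Real.sqrt L := by
            rw [show (20 : ℝ) = Real.sqrt 400 by
              rw [show (400 : ℝ) = 20 ^ 2 by norm_num]; rw [Real.sqrt_sq (by norm_num)]]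
            exact Real.sqrt_le_sqrt hL400
          nlinarith
        linarith
      calc Real.log L / 2 = Real.log (Real.sqrt L) := by rw [Real.log_sqrt hL0.le]
        _ ≤ _ := Real.log_le_log (Real.sqrt_pos.2 hL0) h5
    have hwz : (w : ℝ) ≤ (Real.log z) ^ (1 / 2 : ℝ) := by
      refine hww.trans ?_
      exact Real.rpow_le_rpow (by positivity) hlogz (by norm_num)
    have hzw : w ≤ z := by
      have h5 : (w : ℝ) ≤ z := by
        refine hwz.trans ?_
        have h6 : 1 ≤ Real.log z := by linarith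
        calc (Real.log z) ^ (1 / 2 : ℝ) ≤ (Real.log z) ^ (1 : ℝ) :=
              Real.rpow_le_rpow_of_exponent_le h6 (by norm_num)
          _ = Real.log z := Real.rpow_one _
          _ ≤ z := by
              have hz0' : (0 : ℝ) < z := by
                have : 0 < z := by omega
                exact_mod_cast this
              have := Real.add_one_le_exp (Real.log z)
              rw [Real.exp_log hz0'] at this
              linarith
      exact_mod_cast h5
    have hz99' : (99 : ℝ) ≤ z := by exact_mod_cast hz99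
    have he1 : Real.exp 1 ≤ L := by
      have := Real.exp_one_lt_d9
      linarith
    have hTT : TTk κ y ≤ L ^ 2 := TTk_le hκ hκ1 y he1
    have hTTL : L ≤ TTk κ y := by
      unfold TTk
      rw [← hL]
      have : 1 ≤ Real.exp ((Real.log L) ^ κ) := by
        apply Real.one_le_exp
        positivity
      nlinarith
    have hTT0 : 0 < TTk κ y := by linarith
    have hPlt : (y : ℝ) / TTk κ y < PPk κ y + 1 := Nat.lt_floor_add_one _
    have hqgt : (y : ℝ) / TTk κ y < q := by
      have : ((PPk κ y : ℕ) : ℝ) + 1 ≤ q := by exact_mod_cast hqP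
      linarith
    have hq0 : (0 : ℝ) < q := by exact_mod_cast hqp.pos
    have hQle : (q : ℝ) ≤ 8 * y / L := by
      have h5 : ((QQ y : ℕ) : ℝ) ≤ 8 * y / L := Nat.floor_le (by positivity)
      have h6 : (q : ℝ) ≤ QQ y := by exact_mod_cast hqQ
      linarith
    have hqy : (q : ℝ) ≤ y := by
      refine hQle.trans ?_
      rw [div_le_iff₀ hL0]
      nlinarith
    have hyL2 : (y : ℝ) / L ^ 2 ≤ y / TTk κ y := by gcongr
    -- `z ≤ PPk κ y`
    have h4' : L ^ 3 ≤ Real.exp (7 / 8 * L) := by simpa using h4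
    have hexp78 : Real.exp (7 / 8 * L) * Real.exp (1 / 8 * L) = y := by
      rw [← Real.exp_add, ← hyexp]; congr 1; ring
    have hexp18 : L ≤ Real.exp (7 / 8 * L) := by
      calc L = L ^ 1 := (pow_one _).symm
        _ ≤ L ^ 3 := pow_le_pow_right₀ (by linarith) (by norm_num)
        _ ≤ _ := h4'
    have hyl2 : Real.exp (1 / 8 * L) * L ≤ (y : ℝ) / L ^ 2 := by
      rw [le_div_iff₀ (by positivity)]
      calc Real.exp (1 / 8 * L) * L * L ^ 2 = L ^ 3 * Real.exp (1 / 8 * L) := by ring
        _ ≤ Real.exp (7 / 8 * L) * Real.exp (1 / 8 * L) := by gcongr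
        _ = y := hexp78
    have hexp18' : 1 ≤ Real.exp (1 / 8 * L) := Real.one_le_exp (by positivity)
    have hzP : z ≤ PPk κ y := by
      unfold PPk
      rw [Nat.le_floor_iff (by positivity)]
      calc (z : ℝ) ≤ L := by linarith
        _ ≤ Real.exp (1 / 8 * L) * L := by nlinarith
        _ ≤ _ := hyl2
        _ ≤ _ := hyL2
    have hzq : z < q := by omega
    -- the modulus
    set G := ∏ l ∈ pr w z, l with hG
    have hGpos : 0 < G := Finset.prod_pos fun l hl => (mem_pr.1 hl).2.pos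
    have hGpos' : (0 : ℝ) < G := by exact_mod_cast hGpos
    have hGle : (G : ℝ) ≤ Real.exp (7 / 20 * L) := by
      refine (prod_pr_le w z).trans (Real.exp_le_exp.2 ?_)
      nlinarith
    set X := q / G with hX
    have hXlow : Real.exp (1 / 2 * L) ≤ X := by
      have h5 : (q : ℝ) / G < X + 1 := by
        rw [div_lt_iff₀ hGpos']
        have := Nat.lt_mul_div_succ q hGpos
        calc (q : ℝ) < ((G * (q / G + 1) : ℕ) : ℝ) := by exact_mod_cast this
          _ = _ := by push_cast; ring
      have h6 : 2 * Real.exp (1 / 2 * L) ≤ (q : ℝ) / G := by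
        rw [le_div_iff₀ hGpos']
        calc 2 * Real.exp (1 / 2 * L) * G ≤ 2 * Real.exp (1 / 2 * L) * Real.exp (7 / 20 * L) := by gcongr
          _ = 2 * Real.exp (17 / 20 * L) := by
              rw [mul_assoc, ← Real.exp_add]; congr 2; ring
          _ ≤ y / L ^ 2 := by
              rw [le_div_iff₀ (by positivity)]
              calc 2 * Real.exp (17 / 20 * L) * L ^ 2 = (2 * L ^ 2) * Real.exp (17 / 20 * L) := by ring
                _ ≤ Real.exp (3 / 20 * L) * Real.exp (17 / 20 * L) := by gcongr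
                _ = y := by rw [← Real.exp_add, ← hyexp]; congr 1; ring
          _ ≤ y / TTk κ y := hyL2
          _ ≤ q := hqgt.le
      have h7 : 1 ≤ Real.exp (1 / 2 * L) := Real.one_le_exp (by positivity)
      linarith
    have hX2' : (2 : ℝ) ≤ X := by
      refine le_trans ?_ hXlow
      have := Real.add_one_le_exp (1 / 2 * L)
      linarith
    have hX2 : 2 ≤ X := by exact_mod_cast hX2'
    have hX0 : (0 : ℝ) < X := by linarith
    have hXq : X ≤ q := Nat.div_le_self _ _
    have hXlog : 1 / 2 * L ≤ Real.log X := by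
      rw [← Real.log_exp (1 / 2 * L)]
      exact Real.log_le_log (Real.exp_pos _) hXlow
    have hXP : ⌊(X : ℝ) ^ (1 / 8 : ℝ)⌋₊ ≤ PPk κ y := by
      unfold PPk
      apply Nat.floor_le_floor
      calc (X : ℝ) ^ (1 / 8 : ℝ) ≤ (y : ℝ) ^ (1 / 8 : ℝ) := by
            have : (X : ℝ) ≤ y := le_trans (by exact_mod_cast hXq) hqy
            gcongr
        _ = Real.exp (1 / 8 * L) := by
            rw [Real.rpow_def_of_pos hy0, mul_comm]
        _ ≤ Real.exp (1 / 8 * L) * L := by nlinarith
        _ ≤ _ := hyl2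
        _ ≤ _ := hyL2
    -- the covering
    set J := y / q with hJ
    have hJle : (J : ℝ) ≤ y / q := Nat.cast_div_le
    have hlogz0 : 0 < Real.log z := by linarith
    have hzk4 : 4 ≤ (Real.log z) ^ κ :=
      hllk4.trans (Real.rpow_le_rpow (by positivity) hlogz hκ.le)
    have hJ' : (J : ℝ) ≤ z * Real.exp (2 * (Real.log z) ^ κ) := by
      refine hJle.trans ?_
      have h5 : (y : ℝ) / q ≤ TTk κ y := by
        rw [div_le_iff₀ hq0]
        rw [div_lt_iff₀ hTT0] at hqgt
        linarith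
      refine h5.trans ?_
      unfold TTk
      rw [← hL]
      have hl5 : Real.log 5 ≤ 2 := by
        rw [Real.log_le_iff_le_exp (by norm_num)]
        have e : Real.exp 2 = Real.exp 1 * Real.exp 1 := by rw [← Real.exp_add]; norm_num
        have := Real.exp_one_gt_d9
        rw [e]
        nlinarith
      have hl50 : 0 ≤ Real.log 5 := Real.log_nonneg (by norm_num)
      have hLz : L ≤ z * 5 := by linarith
      have hz0' : (0 : ℝ) < z := by linarith
      have hLz2 : Real.log L ≤ Real.log z + Real.log 5 := by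
        rw [← Real.log_mul hz0'.ne' (by norm_num)]
        exact Real.log_le_log hL0 hLz
      have h6 : (Real.log L) ^ κ ≤ (Real.log z) ^ κ + (Real.log 5) ^ κ := by
        calc (Real.log L) ^ κ ≤ (Real.log z + Real.log 5) ^ κ :=
              Real.rpow_le_rpow (by linarith) hLz2 hκ.le
          _ ≤ _ := Real.rpow_add_le_add_rpow hlogz0.le hl50 hκ.le (by linarith)
      have h7 : (Real.log 5) ^ κ ≤ 2 := by
        calc (Real.log 5) ^ κ ≤ (2 : ℝ) ^ κ := Real.rpow_le_rpow hl50 hl5 hκ.le
          _ ≤ (2 : ℝ) ^ (1 : ℝ) := Real.rpow_le_rpow_of_exponent_le (by norm_num) (by linarith)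
          _ = 2 := Real.rpow_one _
      have h8 : (Real.log L) ^ κ + Real.log 5 ≤ 2 * (Real.log z) ^ κ := by linarith
      calc L * Real.exp ((Real.log L) ^ κ) ≤ (z * 5) * Real.exp ((Real.log L) ^ κ) := by gcongr
        _ = z * Real.exp ((Real.log L) ^ κ + Real.log 5) := by
            rw [Real.exp_add, Real.exp_log (by norm_num)]; ring
        _ ≤ z * Real.exp (2 * (Real.log z) ^ κ) := by
            apply mul_le_mul_of_nonneg_left _ hz0'.le
            exact Real.exp_le_exp.mpr h8
    obtain ⟨h, hh⟩ := hcov z hzz0 w hw2 hwz J hJ'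
    have hXG : G * X ≤ q := Nat.mul_div_le q G
    obtain ⟨c, hc⟩ := cost_core (w := w) (y := y) hqp hzq hzP h hX2 hXG hzw hXP
      (C1 * X * Real.log z / Real.log X) (fun G b hG => hsv z (by omega) G b X hX2 hG)
    refine ⟨c, hc.trans ?_⟩
    have hlogX0 : 0 < Real.log X := by linarith
    have hB : C1 * X * Real.log z / Real.log X / X = C1 * Real.log z / Real.log X := by
      field_simp
    rw [hB]
    have hyq0 : (0 : ℝ) < y / q := by positivity
    have hzyq : (z : ℝ) ≤ 2 * (y / q) := by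
      have h5 : L / 8 ≤ y / q := by
        rw [le_div_iff₀ hq0]
        rw [le_div_iff₀ hL0] at hQle
        nlinarith
      linarith
    have hU : ((J : ℝ) + z) / (Real.log z) ^ (2 - κ - ε) ≤
        3 * (y / q) / (Real.log z) ^ (2 - κ - ε) := by
      gcongr
      linarith
    have hlz32 : (Real.log z) ^ (2 - κ - ε) = Real.log z * (Real.log z) ^ (1 - κ - ε) := by
      rw [show 2 - κ - ε = 1 + (1 - κ - ε) by ring, Real.rpow_add hlogz0, Real.rpow_one]
    have hsq : (Real.log L) ^ (1 - κ - ε) ≤ 2 * (Real.log z) ^ (1 - κ - ε) := by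
      have hs : 0 ≤ 1 - κ - ε := by linarith
      calc (Real.log L) ^ (1 - κ - ε) ≤ (2 * Real.log z) ^ (1 - κ - ε) :=
            Real.rpow_le_rpow (by linarith) (by linarith) hs
        _ = 2 ^ (1 - κ - ε) * (Real.log z) ^ (1 - κ - ε) := Real.mul_rpow (by norm_num) hlogz0.le
        _ ≤ 2 ^ (1 : ℝ) * (Real.log z) ^ (1 - κ - ε) := by
            apply mul_le_mul_of_nonneg_right _ (by positivity)
            exact Real.rpow_le_rpow_of_exponent_le (by norm_num) (by linarith)
        _ = _ := by rw [Real.rpow_one]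
    have hlz12 : 0 < (Real.log z) ^ (1 - κ - ε) := by positivity
    have hlL12 : 0 < (Real.log L) ^ (1 - κ - ε) := by
      have : 0 < Real.log L := by linarith
      positivity
    calc _ ≤ (3 * (y / q) / (Real.log z) ^ (2 - κ - ε)) * (C1 * Real.log z / Real.log X) := by
          apply mul_le_mul_of_nonneg_right (hh.trans hU)
          positivity
      _ = 3 * (y / q) * C1 / ((Real.log z) ^ (1 - κ - ε) * Real.log X) := by
          rw [hlz32]; field_simp
      _ ≤ 3 * (y / q) * C1 / (((Real.log L) ^ (1 - κ - ε) / 2) * (1 / 2 * L)) := by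
          gcongr
          linarith
      _ = 12 * C1 * (y / q) / (L * (Real.log L) ^ (1 - κ - ε)) := by
          field_simp
          ring
  obtain ⟨y0, hy0⟩ := Filter.eventually_atTop.1 ev
  exact ⟨y0, hy0⟩

end RhoU
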