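import Pool.Agent.H27.Rho.E

/-!
# Dense admissible sets, uniform version: covering `[0, J]`
-/

set_option autoImplicit false

open Finset Real
open Pool.Agent.H85.Rho

namespace RhoU

theorem cover_core_u {κ ε : ℝ} (hκ : 0 < κ) (w : ℕ) {A C1 : ℝ} (hA : 0 < A) (hC1 : 0 < C1)
    (hr : ∀ y x : ℕ, 3 ≤ y → y ≤ x → ((Sm y x).card : ℝ) ≤
      C1 * x * Real.exp (- Real.log x / Real.log y) * (Real.log y) ^ A)
    (hup : ∀ n : ℕ, 2 ≤ n → ∏ p ∈ pr 0 n, (1 - (1 : ℝ) / p) ≤ 1 / Real.log n)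
    (z z1 J : ℕ) (hJz : z ≤ J) (h3 : 3 ≤ z1) (hw : w ≤ z1) (hz1 : z1 ≤ z)
    (L : ℝ) (hL : L = Real.log z) (hL1 : 1 ≤ L)
    (hJ : (J : ℝ) ≤ z * Real.exp (2 * L ^ κ))
    (hzL : L ^ 2 ≤ z)
    (h5 : (A + 2) * Real.log L * Real.log z1 ≤ L)
    (h6 : L ≤ 2 * (A + 2) * Real.log L * Real.log z1)
    (h7 : (16 + C1) * (2 * (A + 2)) / (∏ p ∈ pr 0 w, (1 - (1 : ℝ) / p)) * Real.log L ≤
      L ^ ε) :
    ∃ h : ℕ → ℕ, (((Finset.range (J + 1)).filter (fun j => ∀ l ∈ pr w z,
      ¬ j ≡ h l [MOD l])).card : ℝ) ≤ (J : ℝ) / L ^ (2 - κ - ε) := by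
  classical
  have hz3 : 3 ≤ z := h3.trans hz1
  have hzR : (3 : ℝ) ≤ z := by exact_mod_cast hz3
  have hJR : (z : ℝ) ≤ J := by exact_mod_cast hJz
  have hJ0 : (0 : ℝ) < J := by linarith
  have hz1R : (3 : ℝ) ≤ z1 := by exact_mod_cast h3
  have hlz1 : 0 < Real.log z1 := Real.log_pos (by linarith)
  have hL0 : 0 < L := by linarith
  have hq1 : 1 ≤ L ^ κ := Real.one_le_rpow hL1 hκ.le
  have hlz1L : Real.log z1 ≤ L := by
    rw [hL]
    exact Real.log_le_log (by linarith) (by exact_mod_cast hz1)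
  have hLJ : L ≤ Real.log J := by
    rw [hL]
    exact Real.log_le_log (by linarith) hJR
  have hlL : 0 ≤ Real.log L := Real.log_nonneg hL1
  set U := (Finset.range (J + 1)).filter (fun j => ∀ l ∈ pr z1 z, ¬ j ≡ 0 [MOD l]) with hU
  have hUcard : (U.card : ℝ) ≤ (16 + C1) * (J * (L ^ κ / L)) := by
    have h8 := card_uncovered z1 z J (by omega)
    have h9 : (U.card : ℝ) ≤ 1 + (Sm z1 J).card +
        ∑ m ∈ Finset.Icc 1 (J / z), (Nat.primeCounting (J / m) : ℝ) := by exact_mod_cast h8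
    have h10 : ((Sm z1 J).card : ℝ) ≤ C1 * (J * (L ^ κ / L)) := by
      refine (hr z1 J h3 (hz1.trans hJz)).trans ?_
      have e1 : Real.exp (- Real.log J / Real.log z1) ≤ L ^ (-(A + 2)) := by
        rw [Real.rpow_def_of_pos hL0]
        refine Real.exp_le_exp.2 ?_
        rw [div_le_iff₀ hlz1]
        nlinarith
      have e2 : (Real.log z1) ^ A ≤ L ^ A := Real.rpow_le_rpow hlz1.le hlz1L hA.le
      have e3 : Real.exp (- Real.log J / Real.log z1) * (Real.log z1) ^ A ≤ L ^ κ / L := by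
        calc Real.exp (- Real.log J / Real.log z1) * (Real.log z1) ^ A
            ≤ L ^ (-(A + 2)) * L ^ A := mul_le_mul e1 e2 (by positivity) (by positivity)
          _ = L ^ (-2 : ℝ) := by
              rw [← Real.rpow_add hL0]
              congr 1
              ring
          _ ≤ L ^ (κ - 1 : ℝ) := Real.rpow_le_rpow_of_exponent_le hL1 (by linarith)
          _ = L ^ κ / L := by rw [Real.rpow_sub hL0, Real.rpow_one]
      calc C1 * J * Real.exp (- Real.log J / Real.log z1) * (Real.log z1) ^ A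
          = C1 * J * (Real.exp (- Real.log J / Real.log z1) * (Real.log z1) ^ A) := by ring
        _ ≤ C1 * J * (L ^ κ / L) := mul_le_mul_of_nonneg_left e3 (by positivity)
        _ = _ := by ring
    have h11 : ∑ m ∈ Finset.Icc 1 (J / z), (Nat.primeCounting (J / m) : ℝ) ≤
        15 * (J * (L ^ κ / L)) := by
      refine (sum_pi_le z J (by omega) hJz).trans ?_
      have e1 : Real.log (J / z) ≤ 2 * L ^ κ := by
        rw [Real.log_le_iff_le_exp (by positivity), div_le_iff₀ (by linarith), mul_comm]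
        exact hJ
      rw [← hL]
      have e2 : 1 + Real.log (J / z) ≤ 3 * L ^ κ := by linarith
      calc 5 * (J : ℝ) / L * (1 + Real.log (J / z)) ≤ 5 * (J : ℝ) / L * (3 * L ^ κ) :=
            mul_le_mul_of_nonneg_left e2 (by positivity)
        _ = _ := by ring
    have h12 : (1 : ℝ) ≤ 1 * (J * (L ^ κ / L)) := by
      have e1 : L ^ 2 ≤ J := hzL.trans hJR
      have e2 : L ≤ J * L ^ κ := by
        have : L * 1 ≤ (L ^ 2) * L ^ κ := by
          refine mul_le_mul ?_ hq1 (by norm_num) (by positivity)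
          nlinarith
        calc L = L * 1 := by ring
          _ ≤ (L ^ 2) * L ^ κ := this
          _ ≤ J * L ^ κ := mul_le_mul_of_nonneg_right e1 (by positivity)
      rw [one_mul, ← mul_div_assoc, le_div_iff₀ hL0, one_mul]
      exact e2
    calc (U.card : ℝ) ≤ _ := h9
      _ ≤ 1 * (J * (L ^ κ / L)) + C1 * (J * (L ^ κ / L)) +
          15 * (J * (L ^ κ / L)) := add_le_add (add_le_add h12 h10) h11
      _ = _ := by ring
  have hprod : ∏ l ∈ pr w z1, (1 - (1 : ℝ) / l) ≤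
      2 * (A + 2) * Real.log L / L / ∏ p ∈ pr 0 w, (1 - (1 : ℝ) / p) := by
    have e1 := hup z1 (by omega)
    rw [pr_zero_split w z1 hw, Finset.prod_union (pr_disj w z1)] at e1
    rw [le_div_iff₀ (prod_pr_pos 0 w), mul_comm]
    refine e1.trans ?_
    rw [div_le_div_iff₀ hlz1 hL0]
    linarith
  obtain ⟨h', hh'⟩ := greedy U (pr w z1) fun l hl => ((mem_pr.1 hl).2).pos
  refine ⟨fun l => if l ≤ z1 then h' l else 0, ?_⟩
  have hsub : (Finset.range (J + 1)).filter (fun j => ∀ l ∈ pr w z,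
      ¬ j ≡ (fun l => if l ≤ z1 then h' l else 0) l [MOD l]) ⊆
      U.filter (fun j => ∀ l ∈ pr w z1, ¬ j ≡ h' l [MOD l]) := by
    intro j hj
    rw [Finset.mem_filter] at hj
    rw [Finset.mem_filter, hU, Finset.mem_filter]
    refine ⟨⟨hj.1, fun l hl => ?_⟩, fun l hl => ?_⟩
    · rw [mem_pr] at hl
      have h13 := hj.2 l (by
        rw [mem_pr]
        exact ⟨⟨by omega, hl.1.2⟩, hl.2⟩)
      have h14 : ¬ l ≤ z1 := by omega
      simpa only [if_neg h14] using h13
    · rw [mem_pr] at hl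
      have h13 := hj.2 l (by
        rw [mem_pr]
        exact ⟨⟨hl.1.1, by omega⟩, hl.2⟩)
      simpa only [if_pos hl.1.2] using h13
  have hcard : (((Finset.range (J + 1)).filter (fun j => ∀ l ∈ pr w z,
      ¬ j ≡ (fun l => if l ≤ z1 then h' l else 0) l [MOD l])).card : ℝ) ≤
      ((U.filter (fun j => ∀ l ∈ pr w z1, ¬ j ≡ h' l [MOD l])).card : ℝ) := by
    exact_mod_cast Finset.card_le_card hsub
  refine hcard.trans (hh'.trans ?_)
  have hfin : L ^ κ * L ^ ε / (L * L) = 1 / L ^ (2 - κ - ε) := by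
    rw [div_eq_div_iff (by positivity) (by positivity), one_mul, ← Real.rpow_add hL0,
      ← Real.rpow_add hL0]
    have : L * L = L ^ (2 : ℝ) := by
      rw [Real.rpow_two]
      ring
    rw [this]
    congr 1
    ring
  calc (U.card : ℝ) * ∏ l ∈ pr w z1, (1 - (1 : ℝ) / l)
      ≤ ((16 + C1) * (J * (L ^ κ / L))) *
        (2 * (A + 2) * Real.log L / L / ∏ p ∈ pr 0 w, (1 - (1 : ℝ) / p)) :=
        mul_le_mul hUcard hprod (prod_pr_pos _ _).le (by positivity)
    _ = J * L ^ κ / (L * L) *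
        ((16 + C1) * (2 * (A + 2)) / (∏ p ∈ pr 0 w, (1 - (1 : ℝ) / p)) * Real.log L) := by
        ring
    _ ≤ J * L ^ κ / (L * L) * L ^ ε :=
        mul_le_mul_of_nonneg_left h7 (by positivity)
    _ = J * (L ^ κ * L ^ ε / (L * L)) := by ring
    _ = J / L ^ (2 - κ - ε) := by rw [hfin, mul_one_div]

/-- the choice of `z1`, uniform in `w` -/
theorem exists_z1_u {a K ε : ℝ} (ha : 1 ≤ a) (hK : 0 < K) (hε : 0 < ε) :
    ∃ z0 : ℕ, ∀ z : ℕ, z0 ≤ z → ∃ z1 : ℕ, 3 ≤ z1 ∧ (∀ w : ℕ, (w : ℝ) ≤ (Real.log z) ^ (1 / 2 : ℝ) →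
      w ≤ z1) ∧ z1 ≤ z ∧ 1 ≤ Real.log z ∧
      (Real.log z) ^ 2 ≤ z ∧ a * Real.log (Real.log z) * Real.log z1 ≤ Real.log z ∧
      Real.log z ≤ 2 * a * Real.log (Real.log z) * Real.log z1 ∧
      K * (Real.log (Real.log z)) ^ 2 ≤ (Real.log z) ^ ε := by
  have t1 : Filter.Tendsto (fun z : ℕ => Real.log z) Filter.atTop Filter.atTop :=
    Real.tendsto_log_atTop.comp tendsto_natCast_atTop_atTop
  have t2 : Filter.Tendsto (fun L : ℝ => L ^ (1 / 4 : ℝ)) Filter.atTop Filter.atTop :=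
    tendsto_rpow_atTop (by norm_num)
  have ev0 : ∀ᶠ L : ℝ in Filter.atTop, K * (Real.log L) ^ 2 ≤ L ^ ε := by
    have h1 := (isLittleO_log_rpow_rpow_atTop (2 : ℝ) hε).bound (show (0 : ℝ) < 1 / K by positivity)
    filter_upwards [h1, Filter.eventually_ge_atTop 1] with L h2 h3
    have h4 : 0 ≤ Real.log L := Real.log_nonneg h3
    rw [Real.norm_of_nonneg (by positivity), Real.norm_of_nonneg (by positivity), Real.rpow_two,
      one_div_mul_eq_div, le_div_iff₀ hK] at h2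
    linarith
  have ev1 : ∀ᶠ L : ℝ in Filter.atTop, (L ^ (1 / 2 : ℝ) + 4) * (a * Real.log L) ≤ L := by
    filter_upwards [t2.eventually_ge_atTop (20 * a), Filter.eventually_ge_atTop 1] with L h8 h1
    have hL0 : 0 < L := by linarith
    have h2 : Real.log L ≤ L ^ (1 / 4 : ℝ) / (1 / 4) := Real.log_le_rpow_div hL0.le (by norm_num)
    have h3 : L = L ^ (1 / 2 : ℝ) * L ^ (1 / 4 : ℝ) * L ^ (1 / 4 : ℝ) := by
      rw [← Real.rpow_add hL0, ← Real.rpow_add hL0]
      norm_num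
    have h4 : 1 ≤ L ^ (1 / 2 : ℝ) := Real.one_le_rpow h1 (by norm_num)
    have h5 : 0 ≤ Real.log L := Real.log_nonneg h1
    have h6 : 0 ≤ L ^ (1 / 4 : ℝ) := by positivity
    calc (L ^ (1 / 2 : ℝ) + 4) * (a * Real.log L)
        ≤ (5 * L ^ (1 / 2 : ℝ)) * (a * (L ^ (1 / 4 : ℝ) / (1 / 4))) := by
          apply mul_le_mul (by linarith) (mul_le_mul_of_nonneg_left h2 (by linarith))
            (by positivity) (by positivity)
      _ = L ^ (1 / 2 : ℝ) * L ^ (1 / 4 : ℝ) * (20 * a) := by ring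
      _ ≤ L ^ (1 / 2 : ℝ) * L ^ (1 / 4 : ℝ) * L ^ (1 / 4 : ℝ) :=
          mul_le_mul_of_nonneg_left h8 (by positivity)
      _ = L := h3.symm
  have ev : ∀ᶠ L : ℝ in Filter.atTop, Real.exp 1 ≤ L ∧ K * (Real.log L) ^ 2 ≤ L ^ ε ∧
      (L ^ (1 / 2 : ℝ) + 4) * (a * Real.log L) ≤ L :=
    (Filter.eventually_ge_atTop _).and (ev0.and ev1)
  obtain ⟨z0, hz0⟩ := Filter.eventually_atTop.1 (t1.eventually ev)
  refine ⟨max z0 1, fun z hz => ?_⟩
  obtain ⟨hLe, hKL, h9⟩ := hz0 z ((le_max_left _ _).trans hz)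
  have hz1 : 1 ≤ z := (le_max_right _ _).trans hz
  have hzR : (1 : ℝ) ≤ z := by exact_mod_cast hz1
  set L : ℝ := Real.log z with hL
  have hexpL : Real.exp L = z := Real.exp_log (by linarith)
  have he1 : (1 : ℝ) ≤ Real.exp 1 := Real.one_le_exp (by norm_num)
  have hL1 : 1 ≤ L := he1.trans hLe
  have hL0 : 0 < L := by linarith
  have hLL1 : 1 ≤ Real.log L := by
    rw [Real.le_log_iff_exp_le hL0]
    exact hLe
  have hLL0 : 0 < Real.log L := by linarith
  set E : ℝ := L / (a * Real.log L) with hE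
  have haLL : 0 < a * Real.log L := by positivity
  have hEw : L ^ (1 / 2 : ℝ) + 4 ≤ E := by
    rw [hE, le_div_iff₀ haLL]
    exact h9
  have hs0 : 0 ≤ L ^ (1 / 2 : ℝ) := by positivity
  have hE4 : 4 ≤ E := by linarith
  have hEL : E ≤ L := by
    rw [hE]
    refine div_le_self hL0.le ?_
    calc (1 : ℝ) = 1 * 1 := by ring
      _ ≤ a * Real.log L := mul_le_mul ha hLL1 (by norm_num) (by linarith)
  have hexpE : E + 1 ≤ Real.exp E := Real.add_one_le_exp E
  set z1 : ℕ := ⌊Real.exp E⌋₊ with hz1def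
  have hfl : Real.exp E < z1 + 1 := Nat.lt_floor_add_one _
  have hfl2 : (z1 : ℝ) ≤ Real.exp E := Nat.floor_le (Real.exp_pos _).le
  have hz1w : L ^ (1 / 2 : ℝ) + 4 < z1 := by linarith
  have hz1pos : (0 : ℝ) < z1 := by linarith
  have hlogle : Real.log z1 ≤ E := by
    rw [Real.log_le_iff_le_exp hz1pos]
    exact hfl2
  have hlogge : E / 2 ≤ Real.log z1 := by
    rw [Real.le_log_iff_exp_le hz1pos]
    have h1 : Real.exp E = Real.exp (E / 2) * Real.exp (E / 2) := by
      rw [← Real.exp_add]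
      congr 1
      ring
    have h2 : 3 ≤ Real.exp (E / 2) := by
      have := Real.add_one_le_exp (E / 2)
      linarith
    nlinarith
  refine ⟨z1, ?_, ?_, ?_, hL1, ?_, ?_, ?_, hKL⟩
  · have : (3 : ℝ) ≤ z1 := by linarith
    exact_mod_cast this
  · intro w hw
    have : (w : ℝ) ≤ z1 := by linarith
    exact_mod_cast this
  · have : (z1 : ℝ) ≤ z := by
      rw [← hexpL]
      exact hfl2.trans (Real.exp_le_exp.2 hEL)
    exact_mod_cast this
  · rw [← hexpL]
    have h1 : Real.exp L = Real.exp (L / 2) * Real.exp (L / 2) := by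
      rw [← Real.exp_add]
      congr 1
      ring
    have h2 : L ≤ Real.exp (L / 2) := by
      have h3 := Real.add_one_le_exp (L / 4)
      have h4 : Real.exp (L / 2) = Real.exp (L / 4) * Real.exp (L / 4) := by
        rw [← Real.exp_add]
        congr 1
        ring
      rw [h4]
      have h5 : L ≤ (L / 4 + 1) * (L / 4 + 1) := by nlinarith [sq_nonneg (L / 4 - 1)]
      refine h5.trans (mul_le_mul h3 h3 (by positivity) (Real.exp_pos _).le)
    rw [h1, sq]
    exact mul_le_mul h2 h2 hL0.le (Real.exp_pos _).le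
  · calc a * Real.log L * Real.log z1 ≤ a * Real.log L * E :=
          mul_le_mul_of_nonneg_left hlogle haLL.le
      _ = L := by
          rw [hE]
          exact mul_div_cancel₀ _ haLL.ne'
  · calc L = 2 * a * Real.log L * (E / 2) := by
          rw [hE]
          field_simp
      _ ≤ 2 * a * Real.log L * Real.log z1 :=
          mul_le_mul_of_nonneg_left hlogge (by positivity)

/-- covering almost all of `[0, J]`, uniform in `w` -/
theorem cover_u {κ ε : ℝ} (hκ : 0 < κ) (hε : 0 < ε) : ∃ z0 : ℕ, ∀ z : ℕ, z0 ≤ z →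
    ∀ w : ℕ, 2 ≤ w → (w : ℝ) ≤ (Real.log z) ^ (1 / 2 : ℝ) → ∀ J : ℕ,
    (J : ℝ) ≤ z * Real.exp (2 * (Real.log z) ^ κ) →
    ∃ h : ℕ → ℕ, (((Finset.range (J + 1)).filter (fun j => ∀ l ∈ pr w z,
      ¬ j ≡ h l [MOD l])).card : ℝ) ≤ ((J : ℝ) + z) / (Real.log z) ^ (2 - κ - ε) := by
  classical
  obtain ⟨A, C1, hA, hC1, hr⟩ := rankin
  obtain ⟨CM, hCM, hM⟩ := mertens_prod
  have hK : 0 < (16 + C1) * (2 * (A + 2)) * CM := by positivity
  obtain ⟨z0, hz0⟩ := exists_z1_u (a := A + 2) (by linarith) hK hε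
  refine ⟨z0, fun z hz w hw2 hww J hJ => ?_⟩
  obtain ⟨z1, h3, hw', hz1, hL1, hL2, h5, h6, h7'⟩ := hz0 z hz
  have hw := hw' w hww
  have hL0 : 0 < Real.log z := by linarith
  have h7 : (16 + C1) * (2 * (A + 2)) / (∏ p ∈ pr 0 w, (1 - (1 : ℝ) / p)) *
      Real.log (Real.log z) ≤ (Real.log z) ^ ε := by
    refine le_trans ?_ h7'
    have hLL : 0 ≤ Real.log (Real.log z) := Real.log_nonneg hL1
    have hwR : (2 : ℝ) ≤ w := by exact_mod_cast hw2
    have hlw : 0 < Real.log w := Real.log_pos (by linarith)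
    have hp := prod_pr_pos 0 w
    have h8 := hM w hw2
    have h9 : 1 / (∏ p ∈ pr 0 w, (1 - (1 : ℝ) / p)) ≤ CM * Real.log w := by
      rw [div_le_iff₀ hp]
      rw [div_le_iff₀ hlw] at h8
      linarith
    have h10 : Real.log w ≤ Real.log (Real.log z) := by
      apply Real.log_le_log (by linarith)
      refine hww.trans ?_
      calc (Real.log z) ^ (1 / 2 : ℝ) ≤ (Real.log z) ^ (1 : ℝ) :=
            Real.rpow_le_rpow_of_exponent_le hL1 (by norm_num)
        _ = _ := Real.rpow_one _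
    calc (16 + C1) * (2 * (A + 2)) / (∏ p ∈ pr 0 w, (1 - (1 : ℝ) / p)) * Real.log (Real.log z)
        = (16 + C1) * (2 * (A + 2)) * (1 / (∏ p ∈ pr 0 w, (1 - (1 : ℝ) / p))) *
          Real.log (Real.log z) := by ring
      _ ≤ (16 + C1) * (2 * (A + 2)) * (CM * Real.log (Real.log z)) * Real.log (Real.log z) := by
          apply mul_le_mul_of_nonneg_right _ hLL
          apply mul_le_mul_of_nonneg_left _ (by positivity)
          exact h9.trans (mul_le_mul_of_nonneg_left h10 hCM.le)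
      _ = _ := by ring
  have hup := mertens_prod_up
  rcases le_total z J with hzJ | hJz
  · obtain ⟨h, hh⟩ := cover_core_u hκ w hA hC1 hr hup z z1 J hzJ h3 hw hz1 (Real.log z) rfl hL1 hJ hL2
      h5 h6 h7
    refine ⟨h, hh.trans ?_⟩
    refine div_le_div_of_nonneg_right ?_ (by positivity)
    have : (0 : ℝ) ≤ z := Nat.cast_nonneg _
    linarith
  · have hz' : (z : ℝ) ≤ z * Real.exp (2 * (Real.log z) ^ κ) := by
      refine le_mul_of_one_le_right (Nat.cast_nonneg _) ?_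
      exact Real.one_le_exp (by positivity)
    obtain ⟨h, hh⟩ := cover_core_u hκ w hA hC1 hr hup z z1 z le_rfl h3 hw hz1 (Real.log z) rfl hL1 hz'
      hL2 h5 h6 h7
    refine ⟨h, ?_⟩
    have h8 : ((Finset.range (J + 1)).filter (fun j => ∀ l ∈ pr w z, ¬ j ≡ h l [MOD l])).card ≤
        ((Finset.range (z + 1)).filter (fun j => ∀ l ∈ pr w z, ¬ j ≡ h l [MOD l])).card := by
      refine Finset.card_le_card (Finset.filter_subset_filter _ ?_)
      exact Finset.range_mono (by omega)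
    calc (((Finset.range (J + 1)).filter (fun j => ∀ l ∈ pr w z, ¬ j ≡ h l [MOD l])).card : ℝ)
        ≤ ((Finset.range (z + 1)).filter (fun j => ∀ l ∈ pr w z, ¬ j ≡ h l [MOD l])).card := by
          exact_mod_cast h8
      _ ≤ (z : ℝ) / (Real.log z) ^ (2 - κ - ε) := hh
      _ ≤ _ := by
          refine div_le_div_of_nonneg_right ?_ (by positivity)
          have : (0 : ℝ) ≤ J := Nat.cast_nonneg _
          linarith

end RhoU
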