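import Pool.Agent.H7.RhoU.Mass
import Pool.Agent.H7.RhoU.Cost1
import Pool.Agent.H7.PNTE.Z7

/-!
# Dense admissible sets, uniform version: the expected number of survivors
-/

set_option autoImplicit false

open Finset Real
open Pool.Agent.H85.Rho hiding PP MM TT

namespace RhoU

/-- the smoothness parameter -/
noncomputable def ww (κ' : ℝ) (y : ℕ) : ℕ := ⌊(Real.log (Real.log y)) ^ κ'⌋₊

/-- eventual facts about `v = log log y` -/
theorem ev_v {κ κ' : ℝ} (hκ' : 0 < κ') (hκκ : κ' < κ) (hκ : κ ≤ 1 / 2) :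
    ∀ᶠ v : ℝ in Filter.atTop, 8 ≤ v ∧ 2 ≤ v ^ κ' ∧ v ^ κ' ≤ (v / 2) ^ (1 / 2 : ℝ) ∧ v ^ κ ≤ v ∧
      1.4 * (v ^ κ') ^ 2 + 1 ≤ v ∧ 3 + v ^ κ' * (3 + 2 * Real.log v) ≤ v ^ κ := by
  have hκ0 : 0 < κ := by linarith
  have e1 : ∀ᶠ v : ℝ in Filter.atTop, 2 ≤ v ^ κ' := (tendsto_rpow_atTop hκ').eventually_ge_atTop 2
  have e2 : ∀ᶠ v : ℝ in Filter.atTop, 4 ≤ v ^ (1 / 2 - κ' : ℝ) :=
    (tendsto_rpow_atTop (by linarith)).eventually_ge_atTop 4
  have e3 : ∀ᶠ v : ℝ in Filter.atTop, 4 ≤ v ^ (1 - 2 * κ' : ℝ) :=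
    (tendsto_rpow_atTop (by linarith)).eventually_ge_atTop 4
  set δ : ℝ := (κ - κ') / 2 with hδ
  have hδ0 : 0 < δ := by rw [hδ]; linarith
  have e4 : ∀ᶠ v : ℝ in Filter.atTop, 12 / δ + 6 ≤ v ^ δ :=
    (tendsto_rpow_atTop hδ0).eventually_ge_atTop _
  filter_upwards [e1, e2, e3, e4, Filter.eventually_ge_atTop 8] with v h1 h2 h3 h4 h8
  have hv0 : 0 < v := by linarith
  have hv1 : 1 ≤ v := by linarith
  refine ⟨h8, h1, ?_, ?_, ?_, ?_⟩
  · have h5 : v ^ (1 / 2 : ℝ) = v ^ κ' * v ^ (1 / 2 - κ' : ℝ) := by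
      rw [← Real.rpow_add hv0]; congr 1; ring
    have h6 : (v / 2) ^ (1 / 2 : ℝ) = v ^ (1 / 2 : ℝ) / 2 ^ (1 / 2 : ℝ) := Real.div_rpow hv0.le (by norm_num) _
    have h7 : (2 : ℝ) ^ (1 / 2 : ℝ) ≤ 2 := by
      calc (2 : ℝ) ^ (1 / 2 : ℝ) ≤ 2 ^ (1 : ℝ) := Real.rpow_le_rpow_of_exponent_le (by norm_num) (by norm_num)
        _ = 2 := Real.rpow_one _
    rw [h6, le_div_iff₀ (by positivity), h5]
    have h9 : 0 < v ^ κ' := by positivity
    apply mul_le_mul_of_nonneg_left (by linarith) h9.le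
  · calc v ^ κ ≤ v ^ (1 : ℝ) := Real.rpow_le_rpow_of_exponent_le hv1 (by linarith)
      _ = v := Real.rpow_one _
  · have h5 : v = (v ^ κ') ^ 2 * v ^ (1 - 2 * κ' : ℝ) := by
      rw [← Real.rpow_natCast, ← Real.rpow_mul hv0.le, ← Real.rpow_add hv0]
      conv_lhs => rw [← Real.rpow_one v]
      congr 1
      push_cast
      ring
    have h9 : 4 ≤ (v ^ κ') ^ 2 := by nlinarith
    have h10 : (v ^ κ') ^ 2 * 4 ≤ v := by
      calc (v ^ κ') ^ 2 * 4 ≤ (v ^ κ') ^ 2 * v ^ (1 - 2 * κ' : ℝ) :=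
            mul_le_mul_of_nonneg_left h3 (by positivity)
        _ = v := h5.symm
    linarith
  · have h5 : v ^ κ = v ^ κ' * v ^ δ * v ^ δ := by
      rw [← Real.rpow_add hv0, ← Real.rpow_add hv0]; congr 1; rw [hδ]; ring
    have h6 : Real.log v ≤ v ^ δ / δ := Real.log_le_rpow_div hv0.le hδ0
    have h7 : 1 ≤ v ^ κ' := by linarith
    have h9 : 1 ≤ v ^ δ := Real.one_le_rpow hv1 hδ0.le
    have hd : 0 < 1 / δ := by positivity
    have h4' : 2 * (1 / δ) + 6 ≤ v ^ δ := by
      have : 12 / δ = 12 * (1 / δ) := by ring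
      rw [this] at h4
      linarith
    calc 3 + v ^ κ' * (3 + 2 * Real.log v) ≤ v ^ κ' * (6 + 2 * (v ^ δ / δ)) := by nlinarith
      _ ≤ v ^ κ' * (v ^ δ * (2 * (1 / δ) + 6)) := by
          apply mul_le_mul_of_nonneg_left _ (by positivity)
          have : 2 * (v ^ δ / δ) = v ^ δ * (2 * (1 / δ)) := by ring
          rw [this]
          nlinarith
      _ ≤ v ^ κ' * (v ^ δ * v ^ δ) := by
          apply mul_le_mul_of_nonneg_left _ (by positivity)
          exact mul_le_mul_of_nonneg_left h4' (by positivity)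
      _ = _ := by rw [h5]; ring

theorem survivors {κ κ' : ℝ} (hκ' : 0 < κ') (hκκ : κ' < κ) (hκ : κ ≤ 1 / 2) :
    ∃ K : ℝ, ∀ᶠ y : ℕ in Filter.atTop, 2 ≤ ww κ' y ∧
      ((ww κ' y : ℕ) : ℝ) ≤ (Real.log (Real.log y) / 2) ^ (1 / 2 : ℝ) ∧ ww κ' y ≤ PPk κ y ∧
      (Nat.primeCounting y : ℝ) + (κ' * Real.log (Real.log (Real.log y)) - K) * y / (Real.log y) ^ 2 ≤
      ∑ m ∈ Sm (ww κ' y) (MMk κ y), fw (ww κ' y) m *
        ((Nat.primeCounting (y / m) : ℝ) - Nat.primeCounting (PPk κ y)) := by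
  obtain ⟨C, x0, hC, hpi⟩ := PNTE.pi_pnt
  obtain ⟨Cg, hCg, hgain⟩ := gain
  have hκ0 : 0 < κ := by linarith
  refine ⟨Cg + 5 * C + 3, ?_⟩
  have hll : Filter.Tendsto (fun y : ℕ => Real.log (Real.log (y : ℝ))) Filter.atTop Filter.atTop :=
    Real.tendsto_log_atTop.comp tendsto_logN
  filter_upwards [hll.eventually (ev_v hκ' hκκ hκ), ev_pow 2 (1 / 4) (by norm_num) 1,
    tendsto_logN.eventually_ge_atTop (2 * Real.log (max x0 2)),
    tendsto_logN.eventually_ge_atTop 100, Filter.eventually_ge_atTop 3] with y hv hu2 hux hu100 hy3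
  set u : ℝ := Real.log (y : ℝ) with hu
  set v : ℝ := Real.log u with hv'
  obtain ⟨hv8, hv2, hvw, hvκ, hvM, hvT⟩ := hv
  have hv0 : 0 < v := by linarith
  have hu0 : 0 < u := by linarith
  have hy0 : (0 : ℝ) < y := by
    have : 0 < y := by omega
    exact_mod_cast this
  have hyexp : Real.exp u = y := Real.exp_log hy0
  have huexp : Real.exp v = u := Real.exp_log hu0
  set w : ℕ := ww κ' y with hw
  have hwle : (w : ℝ) ≤ v ^ κ' := Nat.floor_le (by positivity)
  have hwgt : v ^ κ' < w + 1 := Nat.lt_floor_add_one _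
  have hw2 : 2 ≤ w := by
    rw [hw]; unfold ww
    rw [Nat.le_floor_iff (by positivity)]
    exact_mod_cast hv2
  have hw2R : (2 : ℝ) ≤ w := by exact_mod_cast hw2
  -- `T`
  set T : ℝ := TTk κ y with hT
  have hTdef : T = u * Real.exp (v ^ κ) := by rw [hT]; unfold TTk; rfl
  have hvκ0 : 0 < v ^ κ := by positivity
  have hE1 : 1 ≤ Real.exp (v ^ κ) := Real.one_le_exp hvκ0.le
  have hTu : u ≤ T := by rw [hTdef]; nlinarith
  have hT0 : 0 < T := by linarith
  have he1 : Real.exp 1 ≤ u := by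
    have := Real.exp_one_lt_d9
    linarith
  have hTu2 : T ≤ u ^ 2 := TTk_le hκ0 hκ y he1
  -- `u^2 ≤ exp(u/4)`
  rw [one_mul] at hu2
  have hsq : u ^ 2 ≤ Real.exp (1 / 4 * u) := hu2
  have hyT : Real.exp (u / 2) ≤ y / T := by
    rw [le_div_iff₀ hT0, ← hyexp]
    calc Real.exp (u / 2) * T ≤ Real.exp (u / 2) * Real.exp (1 / 4 * u) := by
          apply mul_le_mul_of_nonneg_left _ (Real.exp_pos _).le
          linarith
      _ = Real.exp (3 / 4 * u) := by rw [← Real.exp_add]; congr 1; ring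
      _ ≤ Real.exp u := Real.exp_le_exp.mpr (by linarith)
  have hexpx0 : max x0 2 ≤ Real.exp (u / 2) := by
    have h2 : 0 < max x0 2 := lt_of_lt_of_le (by norm_num) (le_max_right _ _)
    rw [← Real.log_le_iff_le_exp h2]
    linarith
  have hx0e : x0 ≤ Real.exp (u / 2) := (le_max_left _ _).trans hexpx0
  have h2e : 2 ≤ Real.exp (u / 2) := (le_max_right _ _).trans hexpx0
  have hyx0 : x0 ≤ y := by
    rw [← hyexp]
    exact hx0e.trans (Real.exp_le_exp.mpr (by linarith))
  -- `M`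
  set M : ℕ := MMk κ y with hM
  have hMle : (M : ℝ) ≤ T := Nat.floor_le hT0.le
  have hMgt : T < M + 1 := Nat.lt_floor_add_one _
  have hM2' : (2 : ℝ) ≤ M := by linarith
  have hM2 : 2 ≤ M := by exact_mod_cast hM2'
  have hM0 : (0 : ℝ) < M := by linarith
  have hMT2 : T / 2 ≤ M := by linarith
  have hlogM : Real.log M ≤ 2 * v := by
    calc Real.log M ≤ Real.log T := Real.log_le_log hM0 hMle
      _ = v + v ^ κ := by rw [hTdef, Real.log_mul hu0.ne' (Real.exp_pos _).ne', Real.log_exp]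
      _ ≤ 2 * v := by linarith
  have hlogM0 : 0 ≤ Real.log M := Real.log_natCast_nonneg M
  -- the power bound
  have hpow : 14 * (18 * w * v) ^ w ≤ Real.exp (v ^ κ) := by
    have hwv : (w : ℝ) ≤ v := by
      have : v ^ κ' ≤ v ^ (1 : ℝ) := Real.rpow_le_rpow_of_exponent_le (by linarith) (by linarith)
      rw [Real.rpow_one] at this
      linarith
    have h1 : Real.log (18 * w * v) ≤ 3 + 2 * Real.log v := by
      have h2 : 18 * (w : ℝ) * v ≤ Real.exp 3 * v ^ 2 := by
        have h3 : (18 : ℝ) ≤ Real.exp 3 := by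
          have e : Real.exp 3 = Real.exp 1 * Real.exp 1 * Real.exp 1 := by
            rw [← Real.exp_add, ← Real.exp_add]; norm_num
          have h5 := Real.exp_one_gt_d9
          rw [e]
          have h6 : 2.7 * 2.7 ≤ Real.exp 1 * Real.exp 1 := by
            apply mul_le_mul <;> first | linarith | norm_num
          have h7 : 2.7 * 2.7 * 2.7 ≤ Real.exp 1 * Real.exp 1 * Real.exp 1 := by
            apply mul_le_mul h6 (by linarith) (by norm_num) (by positivity)
          linarith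
        calc 18 * (w : ℝ) * v ≤ Real.exp 3 * v * v := by gcongr
          _ = _ := by ring
      calc Real.log (18 * w * v) ≤ Real.log (Real.exp 3 * v ^ 2) :=
            Real.log_le_log (by positivity) h2
        _ = 3 + 2 * Real.log v := by
            rw [Real.log_mul (Real.exp_pos _).ne' (by positivity), Real.log_exp, Real.log_pow]
            push_cast; ring
    have h2 : (18 * (w : ℝ) * v) ^ w = Real.exp (w * Real.log (18 * w * v)) := by
      rw [Real.exp_nat_mul, Real.exp_log (by positivity)]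
    have h14 : (14 : ℝ) ≤ Real.exp 3 := by
      have e : Real.exp 3 = Real.exp 1 * Real.exp 1 * Real.exp 1 := by
        rw [← Real.exp_add, ← Real.exp_add]; norm_num
      have h5 := Real.exp_one_gt_d9
      rw [e]
      have h6 : 2.7 * 2.7 ≤ Real.exp 1 * Real.exp 1 := by
        apply mul_le_mul <;> first | linarith | norm_num
      have h7 : 2.7 * 2.7 * 2.7 ≤ Real.exp 1 * Real.exp 1 * Real.exp 1 := by
        apply mul_le_mul h6 (by linarith) (by norm_num) (by positivity)
      linarith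
    have hlogv : 0 ≤ Real.log v := Real.log_nonneg (by linarith)
    calc 14 * (18 * (w : ℝ) * v) ^ w ≤ Real.exp 3 * Real.exp (v ^ κ' * (3 + 2 * Real.log v)) := by
          rw [h2]
          apply mul_le_mul h14 _ (Real.exp_pos _).le (Real.exp_pos _).le
          apply Real.exp_le_exp.mpr
          apply mul_le_mul hwle h1 _ (by positivity)
          apply Real.log_nonneg
          nlinarith
      _ = Real.exp (3 + v ^ κ' * (3 + 2 * Real.log v)) := by rw [← Real.exp_add]
      _ ≤ _ := Real.exp_le_exp.mpr hvT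
  -- mass
  set A1 : ℝ := ∑ m ∈ Sm w M, fw w m / m with hA1
  have hA1up : A1 ≤ 1 := mass_upper w M
  have hA10 : 0 ≤ A1 := sum_nonneg fun m _ => div_nonneg (fw_nonneg w m) (Nat.cast_nonneg _)
  have hA1lo : 1 - 1 / u ≤ A1 := by
    refine le_trans ?_ (mass_lower_u w M hM2)
    have h1 : tc w * (Real.log M) ^ w / M ≤ 1 / u := by
      rw [div_le_div_iff₀ hM0 hu0, one_mul]
      have h2 : tc w * (Real.log M) ^ w ≤ Real.exp (v ^ κ) / 2 := by
        unfold tc
        calc 7 * (9 * (w : ℝ)) ^ w * (Real.log M) ^ w ≤ 7 * (9 * (w : ℝ)) ^ w * (2 * v) ^ w := by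
              gcongr
          _ = 7 * (18 * w * v) ^ w := by
              rw [mul_assoc, ← mul_pow]; congr 2; ring
          _ ≤ _ := by linarith
      calc tc w * (Real.log M) ^ w * u ≤ Real.exp (v ^ κ) / 2 * u := by gcongr
        _ = T / 2 := by rw [hTdef]; ring
        _ ≤ M := hMT2
    linarith
  -- gain
  set A2 : ℝ := ∑ m ∈ Sm w M, fw w m / m * Real.log m with hA2
  have hA2lo : Real.log w - Cg ≤ A2 := by
    apply hgain w M (by omega)
    have h1 : ((4 ^ (w * w) : ℕ) : ℝ) ≤ M := by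
      push_cast
      have h4 : Real.log 4 ≤ 1.4 := by
        have : Real.log 4 = 2 * Real.log 2 := by
          rw [show (4 : ℝ) = 2 ^ 2 by norm_num, Real.log_pow]; norm_num
        rw [this]
        have := Real.log_two_lt_d9
        linarith
      calc (4 : ℝ) ^ (w * w) = Real.exp ((w * w : ℕ) * Real.log 4) := by
            rw [Real.exp_nat_mul, Real.exp_log (by norm_num)]
        _ ≤ Real.exp (1.4 * (v ^ κ') ^ 2) := by
            apply Real.exp_le_exp.mpr
            push_cast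
            have h5 : (w : ℝ) * w ≤ (v ^ κ') ^ 2 := by nlinarith
            have h6 : 0 ≤ (w : ℝ) * w := by positivity
            nlinarith
        _ ≤ Real.exp (v - 1) := Real.exp_le_exp.mpr (by linarith)
        _ ≤ M := by
            rw [Real.exp_sub, huexp]
            have h5 : (2 : ℝ) ≤ Real.exp 1 := by have := Real.exp_one_gt_d9; linarith
            calc u / Real.exp 1 ≤ u / 2 := by gcongr
              _ ≤ M := by linarith
    exact_mod_cast h1
  have hlogw : κ' * Real.log v - 1 ≤ Real.log w := by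
    have h1 : v ^ κ' / 2 ≤ w := by linarith
    have h2 : Real.log (v ^ κ' / 2) ≤ Real.log w := Real.log_le_log (by positivity) h1
    rw [Real.log_div (by positivity) (by norm_num), Real.log_rpow hv0] at h2
    have := Real.log_two_lt_d9
    linarith
  -- the primes up to `P`
  set P : ℕ := PPk κ y with hP
  have hPub : (Nat.primeCounting P : ℝ) * (Sm w M).card ≤ y / u ^ 2 := by
    have hx2 : 2 ≤ (y : ℝ) / T := h2e.trans hyT
    have h1 := pi_le_five hx2
    have h2 : u / 2 ≤ Real.log (y / T) := by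
      rw [Real.le_log_iff_exp_le (by positivity)]; exact hyT
    have h3 : (Nat.primeCounting P : ℝ) ≤ 10 * (y / T) / u := by
      refine h1.trans ?_
      calc 5 * ((y : ℝ) / T) / Real.log (y / T) ≤ 5 * ((y : ℝ) / T) / (u / 2) := by gcongr
        _ = _ := by field_simp; ring
    have h4 : ((Sm w M).card : ℝ) ≤ Real.exp (v ^ κ) / 14 := by
      refine (Sm_card_u w M hM2).trans ?_
      rw [← mul_pow]
      have h5 : (3 * Real.log M) ^ w ≤ (18 * w * v) ^ w := by
        apply pow_le_pow_left₀ (by positivity)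
        nlinarith
      linarith
    calc (Nat.primeCounting P : ℝ) * (Sm w M).card ≤ (10 * (y / T) / u) * (Real.exp (v ^ κ) / 14) := by
          gcongr
      _ = 10 / 14 * (y / u ^ 2) := by rw [hTdef]; field_simp
      _ ≤ y / u ^ 2 := by
          have : 0 ≤ (y : ℝ) / u ^ 2 := by positivity
          linarith
  -- the primes up to `y / m`
  have hterm : ∀ m ∈ Sm w M, fw w m / m * (y * (1 / u + Real.log m / u ^ 2 - 4 * C / u ^ 2)) ≤
      fw w m * (Nat.primeCounting (y / m) : ℝ) := by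
    intro m hm
    rw [mem_Sm] at hm
    have hm1 : (1 : ℝ) ≤ m := by exact_mod_cast hm.1.1
    have hm0 : (0 : ℝ) < m := by linarith
    have hmT : (m : ℝ) ≤ T := le_trans (by exact_mod_cast hm.1.2) hMle
    have hym : Real.exp (u / 2) ≤ (y : ℝ) / m := hyT.trans (by gcongr)
    have h1 := hpi ((y : ℝ) / m) (hx0e.trans hym)
    rw [Nat.floor_div_eq_div] at h1
    have h2 := (abs_le.mp h1).1
    have hl : Real.log ((y : ℝ) / m) = u - Real.log m := by
      rw [Real.log_div hy0.ne' hm0.ne']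
    have hl2 : u / 2 ≤ Real.log ((y : ℝ) / m) := by
      rw [Real.le_log_iff_exp_le (by positivity)]; exact hym
    have hl0 : 0 < Real.log ((y : ℝ) / m) := by linarith
    have hlm : 0 ≤ Real.log m := Real.log_nonneg hm1
    have h3 : ((y : ℝ) / m) * (1 / u + Real.log m / u ^ 2) ≤ ((y : ℝ) / m) / Real.log ((y : ℝ) / m) := by
      rw [le_div_iff₀ hl0, mul_assoc]
      apply mul_le_of_le_one_right (by positivity)
      rw [hl]
      have e : (1 / u + Real.log m / u ^ 2) * (u - Real.log m) = 1 - (Real.log m) ^ 2 / u ^ 2 := by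
        field_simp
        ring
      rw [e]
      have : 0 ≤ (Real.log m) ^ 2 / u ^ 2 := by positivity
      linarith
    have h4 : C * ((y : ℝ) / m) / (Real.log ((y : ℝ) / m)) ^ 2 ≤ ((y : ℝ) / m) * (4 * C / u ^ 2) := by
      have h5 : (u / 2) ^ 2 ≤ (Real.log ((y : ℝ) / m)) ^ 2 := pow_le_pow_left₀ (by positivity) hl2 2
      calc C * ((y : ℝ) / m) / (Real.log ((y : ℝ) / m)) ^ 2 ≤ C * ((y : ℝ) / m) / (u / 2) ^ 2 := by
            gcongr
        _ = _ := by field_simp; ring
    have h6 : ((y : ℝ) / m) * (1 / u + Real.log m / u ^ 2 - 4 * C / u ^ 2) ≤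
        (Nat.primeCounting (y / m) : ℝ) := by
      have e : ((y : ℝ) / m) * (1 / u + Real.log m / u ^ 2 - 4 * C / u ^ 2) =
        ((y : ℝ) / m) * (1 / u + Real.log m / u ^ 2) - ((y : ℝ) / m) * (4 * C / u ^ 2) := by ring
      rw [e]
      linarith
    calc fw w m / m * (y * (1 / u + Real.log m / u ^ 2 - 4 * C / u ^ 2)) =
          fw w m * (((y : ℝ) / m) * (1 / u + Real.log m / u ^ 2 - 4 * C / u ^ 2)) := by
          field_simp
      _ ≤ _ := mul_le_mul_of_nonneg_left h6 (fw_nonneg w m)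
  have hsum1 : y * (1 / u - 4 * C / u ^ 2) * A1 + y / u ^ 2 * A2 ≤
      ∑ m ∈ Sm w M, fw w m * (Nat.primeCounting (y / m) : ℝ) := by
    refine le_trans (le_of_eq ?_) (sum_le_sum hterm)
    rw [hA1, hA2, mul_sum, mul_sum, ← sum_add_distrib]
    apply sum_congr rfl
    intro m _
    ring
  have hsum2 : ∑ m ∈ Sm w M, fw w m * ((Nat.primeCounting (y / m) : ℝ) - Nat.primeCounting P) ≥
      ∑ m ∈ Sm w M, fw w m * (Nat.primeCounting (y / m) : ℝ) - y / u ^ 2 := by
    have e : ∑ m ∈ Sm w M, fw w m * ((Nat.primeCounting (y / m) : ℝ) - Nat.primeCounting P) =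
        ∑ m ∈ Sm w M, fw w m * (Nat.primeCounting (y / m) : ℝ) -
          ∑ m ∈ Sm w M, fw w m * (Nat.primeCounting P : ℝ) := by
      rw [← sum_sub_distrib]
      apply sum_congr rfl
      intro m _
      ring
    rw [e]
    have h1 : ∑ m ∈ Sm w M, fw w m * (Nat.primeCounting P : ℝ) ≤
        (Nat.primeCounting P : ℝ) * (Sm w M).card := by
      calc ∑ m ∈ Sm w M, fw w m * (Nat.primeCounting P : ℝ) ≤
            ∑ m ∈ Sm w M, 1 * (Nat.primeCounting P : ℝ) := by
            apply sum_le_sum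
            intro m _
            exact mul_le_mul_of_nonneg_right (fw_le_one w m) (Nat.cast_nonneg _)
        _ = _ := by rw [sum_const, nsmul_eq_mul]; ring
    linarith
  have hpiy : (Nat.primeCounting y : ℝ) ≤ y / u + C * y / u ^ 2 := by
    have h1 := hpi (y : ℝ) hyx0
    rw [Nat.floor_natCast, ← hu] at h1
    have h2 := (abs_le.mp h1).2
    linarith
  refine ⟨hw2, hwle.trans hvw, ?_, ?_⟩
  · have h1 : (w : ℝ) ≤ y / T := by
      have h2 : (w : ℝ) ≤ v := by
        have : v ^ κ' ≤ v ^ (1 : ℝ) := Real.rpow_le_rpow_of_exponent_le (by linarith) (by linarith)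
        rw [Real.rpow_one] at this
        linarith
      have h3 : v ≤ u := by
        have := Real.add_one_le_exp v
        rw [huexp] at this
        linarith
      have h4 : u ≤ Real.exp (1 / 4 * u) := by nlinarith
      have h5 : Real.exp (1 / 4 * u) ≤ Real.exp (u / 2) := Real.exp_le_exp.mpr (by linarith)
      linarith
    exact Nat.le_floor h1
  · have hR0 : 0 ≤ (y : ℝ) / u ^ 2 := by positivity
    have h1 : y * (1 / u - 4 * C / u ^ 2) * A1 ≥ y / u - y / u ^ 2 - 4 * C * (y / u ^ 2) := by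
      have h2 : y * (1 / u - 4 * C / u ^ 2) * A1 = (y / u) * A1 - 4 * C * (y / u ^ 2) * A1 := by ring
      have h3 : (y / u) * (1 - 1 / u) ≤ (y / u) * A1 := mul_le_mul_of_nonneg_left hA1lo (by positivity)
      have h4 : (y / u) * (1 - 1 / u) = y / u - y / u ^ 2 := by field_simp
      have h5 : 4 * C * (y / u ^ 2) * A1 ≤ 4 * C * (y / u ^ 2) :=
        mul_le_of_le_one_right (by positivity) hA1up
      rw [h2]
      linarith
    have h2 : y / u ^ 2 * A2 ≥ y / u ^ 2 * (κ' * Real.log v - 1 - Cg) :=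
      mul_le_mul_of_nonneg_left (by linarith) hR0
    have e : (κ' * Real.log v - (Cg + 5 * C + 3)) * y / u ^ 2 =
        (κ' * Real.log v - (Cg + 5 * C + 3)) * (y / u ^ 2) := by ring
    have e2 : C * y / u ^ 2 = C * (y / u ^ 2) := by ring
    rw [e]
    rw [e2] at hpiy
    nlinarith

end RhoU
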