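import Pool.Agent.H7.RhoU.Final
import Pool.Agent.H7.PNTE.Z7

/-!
# Prime tuples and dense windows, growing form
-/

set_option autoImplicit false

open Finset Real
open Pool.Agent.H85.Rho hiding PP MM TT

namespace RhoU

theorem tuples_growth {c0 c1 : ℝ} (hc1 : 0 ≤ c1) (hc : c0 + c1 < 1 / 2)
    (h : ∀ Y : ℕ, ∃ y : ℕ, Y ≤ y ∧ ∃ X : ℕ, ∀ x : ℕ, X ≤ x →
      (Nat.primeCounting (x + y) : ℝ) - Nat.primeCounting x ≤ Nat.primeCounting y +
        c0 * Real.log (Real.log (Real.log y)) * y / (Real.log y) ^ 2) (K : ℕ) :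
    ∃ A : Finset ℕ, K ≤ A.card ∧ Adm A ∧ ∃ X : ℕ, ∀ x : ℕ, X ≤ x →
      ((A.filter (fun a => (x + a).Prime)).card : ℝ) <
        A.card - c1 * Real.log (Real.log (Real.log A.card)) * A.card / Real.log A.card := by
  set δ : ℝ := 1 / 2 - (c0 + c1) with hδ
  have hδ0 : 0 < δ := by rw [hδ]; linarith
  set c : ℝ := c0 + c1 + δ / 2 with hcd
  have hc2 : c < 1 / 2 := by rw [hcd, hδ]; linarith
  set η : ℝ := min (1 / 2) (δ / (8 * (c1 + 1))) with hη
  have hη0 : 0 < η := by
    rw [hη]
    apply lt_min (by norm_num)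
    positivity
  have hη1 : η ≤ 1 / 2 := min_le_left _ _
  have hη2 : 4 * c1 * η < δ / 2 := by
    have h1 : η ≤ δ / (8 * (c1 + 1)) := min_le_right _ _
    have h2 : 4 * c1 * η ≤ 4 * c1 * (δ / (8 * (c1 + 1))) := by gcongr
    have h3 : 4 * c1 * (δ / (8 * (c1 + 1))) < δ / 2 := by
      rw [show 4 * c1 * (δ / (8 * (c1 + 1))) = δ / 2 * (c1 / (c1 + 1)) by field_simp; ring]
      have h4 : c1 / (c1 + 1) < 1 := by rw [div_lt_one (by linarith)]; linarith
      have : 0 < δ / 2 := by linarith
      nlinarith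
    linarith
  -- analytic facts for large y
  have hl : Filter.Tendsto (fun y : ℕ => Real.log (y : ℝ)) Filter.atTop Filter.atTop :=
    Real.tendsto_log_atTop.comp tendsto_natCast_atTop_atTop
  have hll : Filter.Tendsto (fun y : ℕ => Real.log (Real.log (y : ℝ))) Filter.atTop Filter.atTop :=
    Real.tendsto_log_atTop.comp hl
  have hlll : Filter.Tendsto (fun y : ℕ => Real.log (Real.log (Real.log (y : ℝ)))) Filter.atTop
      Filter.atTop := Real.tendsto_log_atTop.comp hll
  obtain ⟨C, x0, hC, hpi⟩ := PNTE.pi_pnt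
  have hpi' : ∀ᶠ y : ℕ in Filter.atTop,
      |(Nat.primeCounting y : ℝ) - y / Real.log y| ≤ C * y / (Real.log y) ^ 2 := by
    filter_upwards [tendsto_natCast_atTop_atTop.eventually_ge_atTop x0] with y hy
    have := hpi y hy
    rwa [Nat.floor_natCast] at this
  have hloglog : ∀ᶠ y : ℕ in Filter.atTop, Real.log (Real.log (y : ℝ)) ≤
      (η / 4 / (|c| + c1 + 1)) * Real.log y := by
    have h0 := (isLittleO_log_id_atTop).bound (c := η / 4 / (|c| + c1 + 1)) (by positivity)
    filter_upwards [hl.eventually h0, hl.eventually_ge_atTop 1] with y hy h1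
    simp only [id, Real.norm_eq_abs] at hy
    calc Real.log (Real.log (y : ℝ)) ≤ |Real.log (Real.log (y : ℝ))| := le_abs_self _
      _ ≤ _ := hy
      _ = _ := by rw [abs_of_nonneg (show 0 ≤ Real.log (y : ℝ) by linarith)]
  obtain ⟨Y, hY⟩ := Filter.eventually_atTop.1 ((dense_all hc2).and (hpi'.and (hloglog.and
    ((hl.eventually_ge_atTop (2 * C / η + 2 * C + 2)).and ((hlll.eventually_ge_atTop 1).and
      ((hll.eventually_ge_atTop (4 / η + 1)).and (Filter.eventually_ge_atTop (K ^ 2 + 100))))))))
  obtain ⟨y, hyY, X, hX⟩ := h (max Y 2)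
  obtain ⟨⟨A, hA, hAdm, hAc⟩, hp, hlo, hL1, hl3, hl2, hyK⟩ := hY y ((le_max_left _ _).trans hyY)
  clear hY
  set L := Real.log (y : ℝ) with hLdef
  set l := Real.log (Real.log L) with hldef
  have hCη : 0 ≤ 2 * C / η := by positivity
  have hL2 : 2 ≤ L := by linarith
  have hL0 : 0 < L := by linarith
  have hy100 : (100 : ℝ) ≤ y := by
    have : 100 ≤ y := by omega
    exact_mod_cast this
  have hy0 : (0 : ℝ) < y := by linarith
  have hll1 : 1 ≤ Real.log L := by
    have : 0 < 4 / η := by positivity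
    linarith
  have hl_le : l ≤ Real.log L := by
    have := Real.log_le_sub_one_of_pos (show 0 < Real.log L by linarith)
    rw [hldef]; linarith
  have hll_le : Real.log L ≤ L := by
    have := Real.log_le_sub_one_of_pos hL0
    linarith
  -- size of pi
  have hCL : C / L ≤ η / 2 := by
    rw [div_le_iff₀ hL0]
    have h1 : 2 * C / η ≤ L := by linarith
    rw [div_le_iff₀ hη0] at h1
    linarith
  have hp' := abs_le.1 hp
  have hCyL : C * y / L ^ 2 ≤ η / 2 * (y / L) := by
    rw [show C * y / L ^ 2 = C / L * (y / L) by field_simp]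
    gcongr
  have hpU : (Nat.primeCounting y : ℝ) ≤ (1 + η / 2) * (y / L) := by
    have := hp'.2
    linarith
  have hpL : (1 - η / 2) * (y / L) ≤ (Nat.primeCounting y : ℝ) := by
    have := hp'.1
    linarith
  have hyL0 : 0 < y / L := by positivity
  -- size of c l y / L ^ 2
  have hden : 0 < |c| + c1 + 1 := by positivity
  have hlL : (|c| + c1 + 1) * l ≤ η / 4 * L := by
    have h1 : l ≤ (η / 4 / (|c| + c1 + 1)) * L := hl_le.trans hlo
    have h2 : (|c| + c1 + 1) * l ≤ (|c| + c1 + 1) * ((η / 4 / (|c| + c1 + 1)) * L) := by gcongr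
    have h3 : (|c| + c1 + 1) * ((η / 4 / (|c| + c1 + 1)) * L) = η / 4 * L := by field_simp
    linarith
  have hl0 : 0 < l := by linarith
  have hcabs : |c| * l ≤ η / 4 * L := by
    have h1 : |c| * l ≤ (|c| + c1 + 1) * l := by
      apply mul_le_mul_of_nonneg_right _ hl0.le
      linarith
    linarith
  have hc1l : c1 * l ≤ η / 4 * L := by
    have h1 : c1 * l ≤ (|c| + c1 + 1) * l := by
      apply mul_le_mul_of_nonneg_right _ hl0.le
      linarith [abs_nonneg c]
    linarith
  have hcly : |c * l * y / L ^ 2| ≤ η / 4 * (y / L) := by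
    rw [show c * l * y / L ^ 2 = (c * l) / L * (y / L) by field_simp]
    rw [abs_mul, abs_div, abs_mul, abs_of_pos hl0, abs_of_pos hL0, abs_of_pos hyL0]
    apply mul_le_mul_of_nonneg_right _ hyL0.le
    rw [div_le_iff₀ hL0]
    linarith
  have hcly' := abs_le.1 hcly
  set k0 : ℝ := (Nat.primeCounting y : ℝ) + c * l * y / L ^ 2 with hk0
  have hηyL : 0 ≤ η * (y / L) := by positivity
  have hηyL2 : η * (y / L) ≤ 1 / 2 * (y / L) := by gcongr
  have hηL : 0 ≤ η * L := by positivity
  have hηL2 : η * L ≤ 1 / 2 * L := by gcongr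
  have hk0U : k0 ≤ (1 + η) * (y / L) := by
    rw [hk0]
    have h1 := hcly'.2
    linarith
  have hk0L : 1 / 2 * (y / L) ≤ k0 := by
    rw [hk0]
    have h1 := hcly'.1
    linarith
  -- the cardinality
  have hk : k0 ≤ (A.card : ℝ) := hAc
  have hky : (A.card : ℝ) ≤ y := by
    have := Finset.card_le_card hA
    rw [Nat.card_Icc] at this
    exact_mod_cast (by omega : A.card ≤ y)
  have hk00 : 0 < k0 := by
    have : 0 < 1 / 2 * (y / L) := by positivity
    linarith
  have hkc0 : (0 : ℝ) < A.card := by linarith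
  have hlogk : (1 - η) * L ≤ Real.log A.card := by
    have h1 : Real.log (1 / 2 * (y / L)) ≤ Real.log A.card :=
      Real.log_le_log (by positivity) (by linarith)
    have h2 : Real.log (1 / 2 * (y / L)) = L - Real.log L - Real.log 2 := by
      rw [show (1 / 2 * (y / L) : ℝ) = y / L / 2 by ring, Real.log_div (by positivity) (by norm_num),
        Real.log_div (by positivity) (by positivity)]
    have h3 : Real.log L ≤ η / 4 * L := by
      have h4 : η / 4 / (|c| + c1 + 1) ≤ η / 4 := by
        apply div_le_self (by positivity)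
        linarith [abs_nonneg c]
      calc Real.log L ≤ _ := hlo
        _ ≤ _ := by gcongr
    have h5 : Real.log 2 ≤ η / 4 * L := by
      have : Real.log 2 < 0.6931471808 := Real.log_two_lt_d9
      have h6 : 4 / η + 1 ≤ L := by linarith
      have h7 : η / 4 * (4 / η + 1) ≤ η / 4 * L := by gcongr
      have h8 : η / 4 * (4 / η + 1) = 1 + η / 4 := by field_simp
      linarith
    linarith
  have hlogk1 : 1 ≤ Real.log A.card := by linarith
  have hlogkL : Real.log A.card ≤ L := Real.log_le_log hkc0 hky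
  refine ⟨A, ?_, hAdm, X, fun x hx => ?_⟩
  · -- K ≤ sqrt y ≤ card
    have h2 : (K : ℝ) ≤ Real.sqrt y := by
      apply Real.le_sqrt_of_sq_le
      exact_mod_cast (by omega : K ^ 2 ≤ y)
    have h3 : Real.log (Real.sqrt y) ≤ Real.log A.card := by
      rw [Real.log_sqrt hy0.le]
      have : 1 / 2 * L ≤ (1 - η) * L := by gcongr; linarith
      linarith
    have h4 : Real.sqrt y ≤ A.card :=
      (Real.log_le_log_iff (Real.sqrt_pos.2 hy0) hkc0).1 h3
    exact_mod_cast h2.trans h4
  · have h5 := translate_card A x y hA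
    have h5' : (Nat.primeCounting x : ℝ) + ((A.filter (fun a => (x + a).Prime)).card : ℝ) ≤
        Nat.primeCounting (x + y) := by exact_mod_cast h5
    have h6 := hX x hx
    have h7 : ((A.filter (fun a => (x + a).Prime)).card : ℝ) ≤
        Nat.primeCounting y + c0 * l * y / L ^ 2 := by linarith
    refine lt_of_le_of_lt h7 ?_
    -- bound of the loss
    have h8 : Real.log (Real.log (Real.log A.card)) ≤ l := by
      by_cases h9 : 0 < Real.log (Real.log A.card)
      · apply Real.log_le_log h9
        apply Real.log_le_log (by linarith) hlogkL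
      · have h10 : Real.log (Real.log A.card) = 0 := by
          apply le_antisymm (not_lt.1 h9)
          exact Real.log_nonneg hlogk1
        rw [h10, Real.log_zero]
        exact hl0.le
    have hη3 : 0 < 1 - η := by linarith
    have h9 : c1 * Real.log (Real.log (Real.log A.card)) * A.card / Real.log A.card ≤
        c1 * l / ((1 - η) * L) * A.card := by
      have h10 : c1 * Real.log (Real.log (Real.log A.card)) * A.card ≤ c1 * l * A.card := by gcongr
      have h11 : c1 * Real.log (Real.log (Real.log A.card)) * A.card / Real.log A.card ≤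
          c1 * l * A.card / Real.log A.card := by gcongr
      have h12 : c1 * l * A.card / Real.log A.card ≤ c1 * l * A.card / ((1 - η) * L) := by
        gcongr
      calc _ ≤ _ := h11
        _ ≤ _ := h12
        _ = _ := by ring
    have h10 : 0 ≤ 1 - c1 * l / ((1 - η) * L) := by
      rw [sub_nonneg, div_le_one (by positivity)]
      linarith
    have h11 : k0 * (1 - c1 * l / ((1 - η) * L)) ≤ A.card * (1 - c1 * l / ((1 - η) * L)) := by
      gcongr
    have h12 : k0 * (c1 * l / ((1 - η) * L)) ≤ c1 * (1 + η) / (1 - η) * (l * y / L ^ 2) := by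
      calc k0 * (c1 * l / ((1 - η) * L)) ≤ (1 + η) * (y / L) * (c1 * l / ((1 - η) * L)) := by
            gcongr
        _ = _ := by field_simp
    have h13 : c1 * (1 + η) / (1 - η) < c1 + δ / 2 := by
      rw [div_lt_iff₀ hη3]
      have h1 : 0 ≤ c1 * η := by positivity
      have h2 : δ * η ≤ δ * (1 / 2) := by gcongr
      linarith
    have hly : 0 < l * y / L ^ 2 := by positivity
    have h14 : c1 * (1 + η) / (1 - η) * (l * y / L ^ 2) < (c1 + δ / 2) * (l * y / L ^ 2) := by
      exact mul_lt_mul_of_pos_right h13 hly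
    have h15 : c * l * y / L ^ 2 = c0 * l * y / L ^ 2 + (c1 + δ / 2) * (l * y / L ^ 2) := by
      rw [hcd]; ring
    have h16 : k0 * (1 - c1 * l / ((1 - η) * L)) = k0 - k0 * (c1 * l / ((1 - η) * L)) := by ring
    have h17 : (A.card : ℝ) * (1 - c1 * l / ((1 - η) * L)) =
        A.card - c1 * l / ((1 - η) * L) * A.card := by ring
    rw [hk0] at h11 h12 h16
    linarith

end RhoU
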